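import Pool.Agent.Lib.MP_42948a_nt.TS.Mu
import Pool.Agent.Lib.MP_42948a_nt.TR.S5
import Pool.Agent.Lib.MP_42948a_nt.PS.A1

/-!
# Sums over sparse sets of classes
-/

set_option linter.unusedSectionVars false

namespace Pool.Agent.Lib.MP_42948a_nt.TV

open Finset Pool.Agent.Lib.MP_42948a_nt.OA Pool.Agent.Lib.MP_42948a_nt.TQ Pool.Agent.Lib.MP_42948a_nt.PS
  Pool.Agent.Lib.MP_42948a_nt.TF Pool.Agent.Lib.MP_42948a_nt.TS

variable {d : ℕ} [NeZero d]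

theorem SF_add (e h : (ZMod d)ˣ → ℝ) (χ : DirichletCharacter ℂ d) : SF (fun z => e z + h z) χ = SF e χ + SF h χ := by
  unfold SF
  rw [← sum_add_distrib]
  refine sum_congr rfl fun c _ => ?_
  push_cast
  ring

theorem SF_sub (e h : (ZMod d)ˣ → ℝ) (χ : DirichletCharacter ℂ d) : SF (fun z => e z - h z) χ = SF e χ - SF h χ := by
  unfold SF
  rw [← sum_sub_distrib]
  refine sum_congr rfl fun c _ => ?_
  push_cast
  ring

/-- the scalar product of two functions and their Fourier coefficients -/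
theorem pair_le (e h : (ZMod d)ˣ → ℝ) :
    (Fintype.card (ZMod d)ˣ : ℝ) * ∑ z, e z * h z ≤ ∑ χ : DirichletCharacter ℂ d, ‖SF e χ‖ * ‖SF h χ‖ := by
  have h1 := parseval_SF (fun z => e z + h z)
  have h2 := parseval_SF (fun z => e z - h z)
  have h3 : (Fintype.card (ZMod d)ˣ : ℝ) * ∑ z, e z * h z =
      (∑ χ : DirichletCharacter ℂ d, (‖SF (fun z => e z + h z) χ‖ ^ 2 - ‖SF (fun z => e z - h z) χ‖ ^ 2)) / 4 := by
    rw [sum_sub_distrib, h1, h2, ← mul_sub, ← sum_sub_distrib]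
    have h4 : ∀ z : (ZMod d)ˣ, (e z + h z) ^ 2 - (e z - h z) ^ 2 = 4 * (e z * h z) := fun z => by ring
    rw [sum_congr rfl fun z _ => h4 z, ← mul_sum]
    ring
  rw [h3, sum_div]
  refine sum_le_sum fun χ _ => ?_
  rw [SF_add, SF_sub]
  have h5 : ‖SF e χ + SF h χ‖ ^ 2 ≤ (‖SF e χ‖ + ‖SF h χ‖) ^ 2 := pow_le_pow_left₀ (norm_nonneg _) (norm_add_le _ _) 2
  have h6 : (‖SF e χ‖ - ‖SF h χ‖) ^ 2 ≤ ‖SF e χ - SF h χ‖ ^ 2 := by
    rw [← sq_abs (‖SF e χ‖ - ‖SF h χ‖)]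
    exact pow_le_pow_left₀ (abs_nonneg _) (abs_norm_sub_norm_le _ _) 2
  have h7 : (‖SF e χ‖ + ‖SF h χ‖) ^ 2 - (‖SF e χ‖ - ‖SF h χ‖) ^ 2 = 4 * (‖SF e χ‖ * ‖SF h χ‖) := by ring
  linarith

/-- the Fourier coefficients of a set -/
theorem SF_ind_le (E : Finset (ZMod d)ˣ) (χ : DirichletCharacter ℂ d) :
    ‖SF (fun z => open Classical in if z ∈ E then (1 : ℝ) else 0) χ‖ ≤ E.card := by
  classical
  unfold SF
  refine (norm_sum_le _ _).trans ?_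
  have h1 : ∀ z : (ZMod d)ˣ, ‖(((if z ∈ E then (1 : ℝ) else 0 : ℝ)) : ℂ) * (starRingEnd ℂ) (ev χ z)‖ = if z ∈ E then 1 else 0 := by
    intro z
    rw [norm_mul, RCLike.norm_conj, norm_ev, mul_one, Complex.norm_real]
    by_cases hz : z ∈ E
    · rw [if_pos hz, norm_one]
    · rw [if_neg hz, norm_zero]
  rw [sum_congr rfl fun z _ => h1 z, sum_ite_mem, univ_inter, sum_const, nsmul_eq_mul, mul_one]

/-- the sum of a function with small Fourier coefficients over a sparse set: few characters are treated with the trivial bound for the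
coefficients of the set, the others with the mean square -/
theorem sparse {X : Finset (DirichletCharacter ℂ d)} {η Q : ℝ} {β : (ZMod d)ˣ → ℝ} {b : DirichletCharacter ℂ d → ℝ}
    (hK : Ker X η Q β b) (hη : 0 ≤ η) {τ v w : ℝ} (hτ : 0 ≤ τ) (hv : 0 ≤ v) (hw : 0 ≤ w) (P : Finset ℕ)
    (hX : ∀ χ, χ ∉ X → ‖Pa P χ‖ ≤ τ) (r : DirichletCharacter ℂ d → ℝ) (hr : ∀ χ, 0 ≤ r χ) (h : (ZMod d)ˣ → ℝ)
    (hh : ∀ χ, ‖SF h χ‖ ≤ (Fintype.card (ZMod d)ˣ : ℝ) * (w * ((1 - b χ ^ 2) * ‖Pa P χ‖ * r χ))) {C2 R2 : ℝ}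
    (hC2 : ∀ Ξ : Finset (DirichletCharacter ℂ d), (∀ χ ∈ Ξ, v ≤ ‖Pa P χ‖) → ∑ χ ∈ Ξ, r χ ≤ C2)
    (hR2 : ∑ χ, r χ ^ 2 ≤ R2) (E : Finset (ZMod d)ˣ) :
    ∑ z ∈ E, h z ≤ (Fintype.card (ZMod d)ˣ : ℝ) *
      (w * ((2 * η + τ) * C2 * mu (E : Set (ZMod d)ˣ) + v * √R2 * √(mu (E : Set (ZMod d)ˣ)))) := by
  classical
  have hφ : (0 : ℝ) < (Fintype.card (ZMod d)ˣ : ℝ) := card_pos
  obtain ⟨e, he⟩ : ∃ e : (ZMod d)ˣ → ℝ, e = fun z => if z ∈ E then (1 : ℝ) else 0 := ⟨_, rfl⟩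
  have hmu : (E.card : ℝ) = (Fintype.card (ZMod d)ˣ : ℝ) * mu (E : Set (ZMod d)ˣ) := by
    rw [mu, Set.ncard_coe_finset, mul_div_cancel₀ _ hφ.ne']
  have hmu0 : 0 ≤ mu (E : Set (ZMod d)ˣ) := mu_nonneg _
  have hC20 : 0 ≤ C2 := by
    have h1 := hC2 ∅ (by simp)
    rwa [sum_empty] at h1
  have hR20 : 0 ≤ R2 := (sum_nonneg fun χ _ => sq_nonneg _).trans hR2
  have hsum : ∑ z ∈ E, h z = ∑ z, e z * h z := by
    rw [he]
    simp only [ite_mul, one_mul, zero_mul]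
    rw [sum_ite_mem, univ_inter]
  have hec : ∀ χ, ‖SF e χ‖ ≤ E.card := by
    intro χ
    have h1 := SF_ind_le E χ
    rw [he]
    convert h1
  have hb0 : ∀ χ, 0 ≤ 1 - b χ ^ 2 := by
    intro χ
    have h1 := hK.b_nonneg χ
    have h2 := hK.b_le χ
    nlinarith
  have hb1 : ∀ χ, 1 - b χ ^ 2 ≤ 1 := by
    intro χ
    have h1 := sq_nonneg (b χ)
    linarith
  have hfac : ∀ χ, (1 - b χ ^ 2) * ‖Pa P χ‖ ≤ 2 * η + τ := by
    intro χ
    have hP := norm_Pa_le P χ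
    have hP0 := norm_nonneg (Pa P χ)
    by_cases hx : χ ∈ X
    · have h3 := hK.big χ hx
      have h5 := hK.b_le χ
      have h6 := hK.b_nonneg χ
      have h4 : 1 - b χ ^ 2 ≤ 2 * η := by nlinarith
      calc (1 - b χ ^ 2) * ‖Pa P χ‖ ≤ (1 - b χ ^ 2) * 1 := mul_le_mul_of_nonneg_left hP (hb0 χ)
        _ ≤ 2 * η + τ := by linarith
    · have h3 := hX χ hx
      calc (1 - b χ ^ 2) * ‖Pa P χ‖ ≤ 1 * ‖Pa P χ‖ := mul_le_mul_of_nonneg_right (hb1 χ) hP0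
        _ ≤ 2 * η + τ := by linarith
  -- the sum over the characters
  have h1 := pair_le e h
  have h2 : ∑ χ : DirichletCharacter ℂ d, ‖SF e χ‖ * ‖SF h χ‖ ≤
      (Fintype.card (ZMod d)ˣ : ℝ) * (w * ∑ χ : DirichletCharacter ℂ d, ‖SF e χ‖ * ((1 - b χ ^ 2) * ‖Pa P χ‖ * r χ)) := by
    rw [mul_sum, mul_sum]
    refine sum_le_sum fun χ _ => ?_
    refine (mul_le_mul_of_nonneg_left (hh χ) (norm_nonneg _)).trans (le_of_eq ?_)
    ring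
  have h3 : ∑ χ ∈ univ.filter (fun χ : DirichletCharacter ℂ d => v ≤ ‖Pa P χ‖), ‖SF e χ‖ * ((1 - b χ ^ 2) * ‖Pa P χ‖ * r χ) ≤
      E.card * ((2 * η + τ) * C2) := by
    have h4 : ∑ χ ∈ univ.filter (fun χ : DirichletCharacter ℂ d => v ≤ ‖Pa P χ‖), ‖SF e χ‖ * ((1 - b χ ^ 2) * ‖Pa P χ‖ * r χ) ≤
        ∑ χ ∈ univ.filter (fun χ : DirichletCharacter ℂ d => v ≤ ‖Pa P χ‖), (E.card : ℝ) * ((2 * η + τ) * r χ) := by
      refine sum_le_sum fun χ _ => ?_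
      exact mul_le_mul (hec χ) (mul_le_mul_of_nonneg_right (hfac χ) (hr χ))
        (mul_nonneg (mul_nonneg (hb0 χ) (norm_nonneg _)) (hr χ)) (Nat.cast_nonneg _)
    refine h4.trans ?_
    rw [← mul_sum, ← mul_sum]
    refine mul_le_mul_of_nonneg_left (mul_le_mul_of_nonneg_left ?_ (by positivity)) (Nat.cast_nonneg _)
    exact hC2 _ fun χ hχ => (mem_filter.1 hχ).2
  have h5 : ∑ χ ∈ univ.filter (fun χ : DirichletCharacter ℂ d => ¬ v ≤ ‖Pa P χ‖), ‖SF e χ‖ * ((1 - b χ ^ 2) * ‖Pa P χ‖ * r χ) ≤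
      v * (√((Fintype.card (ZMod d)ˣ : ℝ) * E.card) * √R2) := by
    have h6 : ∑ χ ∈ univ.filter (fun χ : DirichletCharacter ℂ d => ¬ v ≤ ‖Pa P χ‖), ‖SF e χ‖ * ((1 - b χ ^ 2) * ‖Pa P χ‖ * r χ) ≤
        ∑ χ ∈ univ.filter (fun χ : DirichletCharacter ℂ d => ¬ v ≤ ‖Pa P χ‖), v * (‖SF e χ‖ * r χ) := by
      refine sum_le_sum fun χ hχ => ?_
      have h7 := (mem_filter.1 hχ).2
      push Not at h7
      have h8 : (1 - b χ ^ 2) * ‖Pa P χ‖ ≤ v := by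
        calc (1 - b χ ^ 2) * ‖Pa P χ‖ ≤ 1 * ‖Pa P χ‖ := mul_le_mul_of_nonneg_right (hb1 χ) (norm_nonneg _)
          _ ≤ v := by linarith
      calc ‖SF e χ‖ * ((1 - b χ ^ 2) * ‖Pa P χ‖ * r χ) = ((1 - b χ ^ 2) * ‖Pa P χ‖) * (‖SF e χ‖ * r χ) := by ring
        _ ≤ v * (‖SF e χ‖ * r χ) := mul_le_mul_of_nonneg_right h8 (mul_nonneg (norm_nonneg _) (hr χ))
    refine h6.trans ?_
    rw [← mul_sum]
    refine mul_le_mul_of_nonneg_left ?_ hv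
    refine (sum_le_sum_of_subset_of_nonneg (filter_subset _ _) fun χ _ _ => mul_nonneg (norm_nonneg _) (hr χ)).trans ?_
    have h7 := Real.sum_mul_le_sqrt_mul_sqrt univ (fun χ : DirichletCharacter ℂ d => ‖SF e χ‖) r
    refine h7.trans ?_
    refine mul_le_mul (Real.sqrt_le_sqrt ?_) (Real.sqrt_le_sqrt hR2) (Real.sqrt_nonneg _) (Real.sqrt_nonneg _)
    rw [parseval_SF]
    refine mul_le_mul_of_nonneg_left (le_of_eq ?_) hφ.le
    rw [he]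
    have h8 : ∀ z : (ZMod d)ˣ, (if z ∈ E then (1 : ℝ) else 0) ^ 2 = if z ∈ E then 1 else 0 := by
      intro z
      by_cases hz : z ∈ E
      · rw [if_pos hz, one_pow]
      · rw [if_neg hz, zero_pow two_ne_zero]
    rw [sum_congr rfl fun z _ => h8 z, sum_ite_mem, univ_inter, sum_const, nsmul_eq_mul, mul_one]
  have h9 : √((Fintype.card (ZMod d)ˣ : ℝ) * E.card) = (Fintype.card (ZMod d)ˣ : ℝ) * √(mu (E : Set (ZMod d)ˣ)) := by
    rw [hmu, ← mul_assoc, Real.sqrt_mul (mul_nonneg hφ.le hφ.le), Real.sqrt_mul_self hφ.le]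
  have h10 : (Fintype.card (ZMod d)ˣ : ℝ) * ∑ z, e z * h z ≤ (Fintype.card (ZMod d)ˣ : ℝ) * ((Fintype.card (ZMod d)ˣ : ℝ) *
      (w * ((2 * η + τ) * C2 * mu (E : Set (ZMod d)ˣ) + v * √R2 * √(mu (E : Set (ZMod d)ˣ))))) := by
    refine h1.trans (h2.trans (mul_le_mul_of_nonneg_left ?_ hφ.le))
    rw [← sum_filter_add_sum_filter_not univ (fun χ : DirichletCharacter ℂ d => v ≤ ‖Pa P χ‖)]
    have h11 := mul_le_mul_of_nonneg_left (add_le_add h3 h5) hw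
    refine h11.trans (le_of_eq ?_)
    rw [h9, hmu]
    ring
  rw [hsum]
  exact le_of_mul_le_mul_left h10 hφ

end Pool.Agent.Lib.MP_42948a_nt.TV
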