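import Pool.Agent.Lib.MP_42948a_nt.TV.P1
import Pool.Agent.Lib.MP_42948a_nt.TS.Blk

/-!
# Sparse sets of classes which are not represented
-/

set_option linter.unusedSectionVars false

namespace Pool.Agent.Lib.MP_42948a_nt.TV

open Finset Pool.Agent.Lib.MP_42948a_nt.OA Pool.Agent.Lib.MP_42948a_nt.TQ Pool.Agent.Lib.MP_42948a_nt.PS
  Pool.Agent.Lib.MP_42948a_nt.TF Pool.Agent.Lib.MP_42948a_nt.TS

variable {d : ℕ} [NeZero d]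

theorem den_nonneg (A : Finset ℕ) (x : (ZMod d)ˣ) : 0 ≤ den A x := by
  unfold den
  refine mul_nonneg card_pos.le (sum_nonneg fun n _ => ?_)
  by_cases h : ucl d n = x
  · rw [if_pos h]
    positivity
  · rw [if_neg h]

theorem norm_SF_cvden (A B : Finset ℕ) (χ : DirichletCharacter ℂ d) :
    ‖SF (cv (den A) (den B)) χ‖ = (Fintype.card (ZMod d)ˣ : ℝ) * (‖TR.DA A χ‖ * ‖TR.DA B χ‖) := by
  have hφ : (0 : ℝ) < (Fintype.card (ZMod d)ˣ : ℝ) := card_pos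
  have h1 := congrArg norm (SF_cv (den A) (den B) χ)
  rw [SF_den, SF_den, norm_mul, norm_mul, norm_mul, norm_mul, Complex.norm_natCast] at h1
  apply mul_left_cancel₀ hφ.ne'
  rw [h1]
  unfold TR.DA
  ring

theorem sum_DA_sq_le {A B : Finset ℕ} {C : ℝ} (hC : ∀ x : (ZMod d)ˣ, cv (den A) (den B) x ≤ C) :
    ∑ χ : DirichletCharacter ℂ d, (‖TR.DA A χ‖ * ‖TR.DA B χ‖) ^ 2 ≤ C ^ 2 := by
  have hφ : (0 : ℝ) < (Fintype.card (ZMod d)ˣ : ℝ) := card_pos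
  have hF0 : ∀ x : (ZMod d)ˣ, 0 ≤ cv (den A) (den B) x := fun x =>
    av_nonneg fun y => mul_nonneg (den_nonneg _ _) (den_nonneg _ _)
  have h1 := parseval_SF (cv (den A) (den B) : (ZMod d)ˣ → ℝ)
  have h2 : ∑ χ : DirichletCharacter ℂ d, ‖SF (cv (den A) (den B)) χ‖ ^ 2 =
      (Fintype.card (ZMod d)ˣ : ℝ) ^ 2 * ∑ χ : DirichletCharacter ℂ d, (‖TR.DA A χ‖ * ‖TR.DA B χ‖) ^ 2 := by
    rw [mul_sum]
    refine sum_congr rfl fun χ _ => ?_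
    rw [norm_SF_cvden]
    ring
  have h3 : ∑ c : (ZMod d)ˣ, cv (den A) (den B) c ^ 2 ≤ (Fintype.card (ZMod d)ˣ : ℝ) * C ^ 2 := by
    calc ∑ c : (ZMod d)ˣ, cv (den A) (den B) c ^ 2 ≤ ∑ _c : (ZMod d)ˣ, C ^ 2 :=
          sum_le_sum fun c _ => pow_le_pow_left₀ (hF0 c) (hC c) 2
      _ = (Fintype.card (ZMod d)ˣ : ℝ) * C ^ 2 := by rw [sum_const, card_univ, nsmul_eq_mul]
  have h4 : (Fintype.card (ZMod d)ˣ : ℝ) ^ 2 * ∑ χ : DirichletCharacter ℂ d, (‖TR.DA A χ‖ * ‖TR.DA B χ‖) ^ 2 ≤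
      (Fintype.card (ZMod d)ˣ : ℝ) ^ 2 * C ^ 2 := by
    rw [← h2, h1]
    calc (Fintype.card (ZMod d)ˣ : ℝ) * ∑ c : (ZMod d)ˣ, cv (den A) (den B) c ^ 2 ≤
          (Fintype.card (ZMod d)ˣ : ℝ) * ((Fintype.card (ZMod d)ˣ : ℝ) * C ^ 2) := mul_le_mul_of_nonneg_left h3 hφ.le
      _ = _ := by ring
  exact le_of_mul_le_mul_left h4 (by positivity)

theorem sum_DA_le {A B : Finset ℕ} {C2 : ℝ} {Ξ : Finset (DirichletCharacter ℂ d)} (hA : ∑ χ ∈ Ξ, ‖TR.DA A χ‖ ^ 2 ≤ C2)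
    (hB : ∑ χ ∈ Ξ, ‖TR.DA B χ‖ ^ 2 ≤ C2) : ∑ χ ∈ Ξ, ‖TR.DA A χ‖ * ‖TR.DA B χ‖ ≤ C2 := by
  have h1 : ∑ χ ∈ Ξ, ‖TR.DA A χ‖ * ‖TR.DA B χ‖ ≤ ∑ χ ∈ Ξ, (‖TR.DA A χ‖ ^ 2 + ‖TR.DA B χ‖ ^ 2) / 2 := by
    refine sum_le_sum fun χ _ => ?_
    have := sq_nonneg (‖TR.DA A χ‖ - ‖TR.DA B χ‖)
    nlinarith
  refine h1.trans ?_
  rw [← sum_div, sum_add_distrib]
  linarith

/-- the sum of the smoothed convolution over a sparse set of classes which are not products `p m n` -/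
theorem blkp {X : Finset (DirichletCharacter ℂ d)} {η Q : ℝ} {β : (ZMod d)ˣ → ℝ}
    {b : DirichletCharacter ℂ d → ℝ} (hK : Ker X η Q β b) (hη : 0 ≤ η) {τ v C C2 : ℝ} (hτ : 0 ≤ τ) (hv : 0 ≤ v) (U A B : Finset ℕ)
    (hU : ∀ p ∈ U, p.Coprime d) (hA : ∀ m ∈ A, m.Coprime d) (hB : ∀ n ∈ B, n.Coprime d) (hW : 0 < Wt U)
    (hX : ∀ χ, χ ∉ X → ‖Pa U χ‖ ≤ τ) (hC : ∀ x : (ZMod d)ˣ, cv (den A) (den B) x ≤ C)
    (hLA : ∀ Ξ : Finset (DirichletCharacter ℂ d), (∀ χ ∈ Ξ, v ≤ ‖Pa U χ‖) → ∑ χ ∈ Ξ, ‖TR.DA A χ‖ ^ 2 ≤ C2)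
    (hLB : ∀ Ξ : Finset (DirichletCharacter ℂ d), (∀ χ ∈ Ξ, v ≤ ‖Pa U χ‖) → ∑ χ ∈ Ξ, ‖TR.DA B χ‖ ^ 2 ≤ C2) (E : Finset (ZMod d)ˣ)
    (hE : ∀ z ∈ E, ∀ p ∈ U, ∀ m ∈ A, ∀ n ∈ B, ((p * (m * n) : ℕ) : ZMod d) ≠ (z : ZMod d)) :
    ∑ z ∈ E, ∑ p ∈ U, 1 / (p : ℝ) * cv (sm β A) (sm β B) (z * (ucl d p)⁻¹) ≤
      (Fintype.card (ZMod d)ˣ : ℝ) * (Wt U * ((2 * η + τ) * C2 * mu (E : Set (ZMod d)ˣ) + v * C * √(mu (E : Set (ZMod d)ˣ)))) := by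
  classical
  have hφ : (0 : ℝ) < (Fintype.card (ZMod d)ˣ : ℝ) := card_pos
  have hφC : (Fintype.card (ZMod d)ˣ : ℂ) ≠ 0 := by exact_mod_cast (Fintype.card_pos (α := (ZMod d)ˣ)).ne'
  obtain ⟨F, hF⟩ : ∃ F : (ZMod d)ˣ → ℝ, F = cv (den A) (den B) := ⟨_, rfl⟩
  obtain ⟨S, hS⟩ : ∃ S : (ZMod d)ˣ → ℝ, S = cv (sm β A) (sm β B) := ⟨_, rfl⟩
  have hF0 : ∀ x, 0 ≤ F x := by
    intro x
    rw [hF]
    exact av_nonneg fun y => mul_nonneg (den_nonneg _ _) (den_nonneg _ _)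
  have hC0 : 0 ≤ C := (hF0 1).trans (by rw [hF]; exact hC 1)
  -- the coefficients
  have hSF : ∀ χ, SF S χ = ((b χ ^ 2 : ℝ) : ℂ) * SF F χ := by
    intro χ
    have h1 := SF_cv (sm β A) (sm β B) χ
    have h2 := SF_cv (den A) (den B) χ
    rw [SF_sm, SF_sm, hK.coef] at h1
    rw [SF_den, SF_den] at h2
    rw [← hS] at h1
    rw [← hF] at h2
    apply mul_left_cancel₀ hφC
    rw [h1]
    have h3 : (Fintype.card (ZMod d)ˣ : ℂ) * (((b χ ^ 2 : ℝ) : ℂ) * SF F χ) =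
        ((b χ ^ 2 : ℝ) : ℂ) * ((Fintype.card (ZMod d)ˣ : ℂ) * SF F χ) := by ring
    rw [h3, h2]
    push_cast
    ring
  obtain ⟨h, hh⟩ : ∃ h : (ZMod d)ˣ → ℝ, h = fun z => sm S U z - sm F U z := ⟨_, rfl⟩
  have hSh : ∀ χ, SF h χ = (((b χ ^ 2 - 1 : ℝ) : ℂ) * SF F χ) * TR.DA U χ := by
    intro χ
    have h1 : SF h χ = SF (sm S U) χ - SF (sm F U) χ := by
      rw [hh]
      exact SF_sub _ _ _
    rw [h1, SF_sm, SF_sm, hSF]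
    unfold TR.DA
    push_cast
    ring
  have hnorm : ∀ χ, ‖SF h χ‖ ≤ (Fintype.card (ZMod d)ˣ : ℝ) *
      (Wt U * ((1 - b χ ^ 2) * ‖Pa U χ‖ * (‖TR.DA A χ‖ * ‖TR.DA B χ‖))) := by
    intro χ
    have h1 : |b χ ^ 2 - 1| = 1 - b χ ^ 2 := by
      have hb0 := hK.b_nonneg χ
      have hb1 := hK.b_le χ
      rw [abs_of_nonpos (by nlinarith)]
      ring
    rw [hSh, norm_mul, norm_mul, TR.DA_Pa U hU hW, Complex.norm_real, Real.norm_eq_abs, h1, hF, norm_SF_cvden]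
    refine le_of_eq ?_
    ring
  have key := sparse hK hη hτ hv hW.le U hX (fun χ => ‖TR.DA A χ‖ * ‖TR.DA B χ‖)
    (fun χ => mul_nonneg (norm_nonneg _) (norm_nonneg _)) h hnorm (C2 := C2) (R2 := C ^ 2)
    (fun Ξ hΞ => sum_DA_le (hLA Ξ hΞ) (hLB Ξ hΞ)) (sum_DA_sq_le hC) E
  rw [Real.sqrt_sq hC0] at key
  -- the classes in `E`
  have hEz : ∀ z ∈ E, ∑ p ∈ U, 1 / (p : ℝ) * cv (sm β A) (sm β B) (z * (ucl d p)⁻¹) = h z := by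
    intro z hz
    have h1 : sm F U z = 0 := by
      unfold sm
      refine sum_eq_zero fun p hp => ?_
      rw [hF, cv_den_zero A B hA hB, mul_zero]
      intro m hm n hn hc
      apply hE z hz p hp m hm n hn
      rw [Nat.cast_mul, hc, ← ucl_val (hU p hp), ← Units.val_mul, mul_comm z, mul_inv_cancel_left]
    rw [hh]
    show _ = sm S U z - sm F U z
    rw [h1, sub_zero, hS]
    rfl
  rw [sum_congr rfl hEz]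
  exact key

/-- choice of the class `g = z / p` -/
theorem exists_gp {ι : Type*} (I : Finset ι) {X : Finset (DirichletCharacter ℂ d)} {η Q : ℝ} {β : (ZMod d)ˣ → ℝ}
    {b : DirichletCharacter ℂ d → ℝ} (hK : Ker X η Q β b) (hη : 0 ≤ η) {τ v C C2 D : ℝ} (hτ : 0 ≤ τ) (hv : 0 ≤ v) (U : Finset ℕ)
    (A B : ι → Finset ℕ)
    (hU : ∀ p ∈ U, p.Coprime d) (hA : ∀ i ∈ I, ∀ m ∈ A i, m.Coprime d) (hB : ∀ i ∈ I, ∀ n ∈ B i, n.Coprime d) (hW : 0 < Wt U)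
    (hX : ∀ χ, χ ∉ X → ‖Pa U χ‖ ≤ τ) (hC : ∀ i ∈ I, ∀ x : (ZMod d)ˣ, cv (den (A i)) (den (B i)) x ≤ C)
    (hLA : ∀ i ∈ I, ∀ Ξ : Finset (DirichletCharacter ℂ d), (∀ χ ∈ Ξ, v ≤ ‖Pa U χ‖) → ∑ χ ∈ Ξ, ‖TR.DA (A i) χ‖ ^ 2 ≤ C2)
    (hLB : ∀ i ∈ I, ∀ Ξ : Finset (DirichletCharacter ℂ d), (∀ χ ∈ Ξ, v ≤ ‖Pa U χ‖) → ∑ χ ∈ Ξ, ‖TR.DA (B i) χ‖ ^ 2 ≤ C2)
    (E : Finset (ZMod d)ˣ) (hE0 : E.Nonempty)
    (hD : (2 * η + τ) * C2 * mu (E : Set (ZMod d)ˣ) + v * C * √(mu (E : Set (ZMod d)ˣ)) ≤ D * mu (E : Set (ZMod d)ˣ))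
    (hE : ∀ z ∈ E, ∀ p ∈ U, ∀ i ∈ I, ∀ m ∈ A i, ∀ n ∈ B i, ((p * (m * n) : ℕ) : ZMod d) ≠ (z : ZMod d)) :
    ∃ z ∈ E, ∃ p ∈ U, ∀ i ∈ I, cv (sm β (A i)) (sm β (B i)) (z * (ucl d p)⁻¹) ≤ (I.card : ℝ) * D := by
  classical
  have hφ : (0 : ℝ) < (Fintype.card (ZMod d)ˣ : ℝ) := card_pos
  have hcv0 : ∀ i x, 0 ≤ cv (sm β (A i)) (sm β (B i)) x := fun i x =>
    av_nonneg fun y => mul_nonneg (sm_nonneg hK.nonneg _ _) (sm_nonneg hK.nonneg _ _)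
  by_contra hcon
  push Not at hcon
  obtain ⟨M, hM⟩ : ∃ M, M = (I.card : ℝ) * D := ⟨_, rfl⟩
  rw [← hM] at hcon
  -- the sum over `I`
  have h1 : ∀ z ∈ E, ∀ p ∈ U, M < ∑ i ∈ I, cv (sm β (A i)) (sm β (B i)) (z * (ucl d p)⁻¹) := by
    intro z hz p hp
    obtain ⟨i, hi, h2⟩ := hcon z hz p hp
    exact lt_of_lt_of_le h2 (single_le_sum (f := fun i => cv (sm β (A i)) (sm β (B i)) (z * (ucl d p)⁻¹))
      (fun i _ => hcv0 i _) hi)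
  have h2 : (E.card : ℝ) * Wt U * M < ∑ z ∈ E, ∑ p ∈ U, 1 / (p : ℝ) * ∑ i ∈ I, cv (sm β (A i)) (sm β (B i)) (z * (ucl d p)⁻¹) := by
    have h3 : (E.card : ℝ) * Wt U * M = ∑ _z ∈ E, ∑ p ∈ U, 1 / (p : ℝ) * M := by
      rw [sum_const, nsmul_eq_mul, ← sum_mul, mul_assoc]
      rfl
    rw [h3]
    refine sum_lt_sum_of_nonempty hE0 fun z hz => ?_
    obtain ⟨p, hp, hp0⟩ : ∃ p ∈ U, 0 < 1 / (p : ℝ) := by
      by_contra hc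
      push Not at hc
      have h5 : Wt U ≤ 0 := sum_nonpos fun p hp => hc p hp
      linarith
    refine sum_lt_sum (fun p hp => mul_le_mul_of_nonneg_left (h1 z hz p hp).le (by positivity)) ⟨p, hp, ?_⟩
    exact mul_lt_mul_of_pos_left (h1 z hz p hp) hp0
  have h3 : ∑ z ∈ E, ∑ p ∈ U, 1 / (p : ℝ) * ∑ i ∈ I, cv (sm β (A i)) (sm β (B i)) (z * (ucl d p)⁻¹) =
      ∑ i ∈ I, ∑ z ∈ E, ∑ p ∈ U, 1 / (p : ℝ) * cv (sm β (A i)) (sm β (B i)) (z * (ucl d p)⁻¹) := by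
    rw [sum_comm (s := I)]
    refine sum_congr rfl fun z _ => ?_
    rw [sum_comm (s := I)]
    exact sum_congr rfl fun p _ => mul_sum _ _ _
  have h4 : ∀ i ∈ I, ∑ z ∈ E, ∑ p ∈ U, 1 / (p : ℝ) * cv (sm β (A i)) (sm β (B i)) (z * (ucl d p)⁻¹) ≤
      (Fintype.card (ZMod d)ˣ : ℝ) * (Wt U * (D * mu (E : Set (ZMod d)ˣ))) := by
    intro i hi
    refine (blkp hK hη hτ hv U (A i) (B i) hU (hA i hi) (hB i hi) hW hX (hC i hi) (hLA i hi) (hLB i hi) E fun z hz p hp m hm n hn =>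
      hE z hz p hp i hi m hm n hn).trans ?_
    exact mul_le_mul_of_nonneg_left (mul_le_mul_of_nonneg_left hD hW.le) hφ.le
  rw [h3] at h2
  have h5 := h2.trans_le (sum_le_sum h4)
  rw [sum_const, nsmul_eq_mul] at h5
  have h6 : (E.card : ℝ) * Wt U * M = (I.card : ℝ) * ((Fintype.card (ZMod d)ˣ : ℝ) * (Wt U * (D * mu (E : Set (ZMod d)ˣ)))) := by
    have h7 : (E.card : ℝ) = mu (E : Set (ZMod d)ˣ) * (Fintype.card (ZMod d)ˣ : ℝ) := by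
      rw [mu, Set.ncard_coe_finset, div_mul_cancel₀ _ hφ.ne']
    rw [hM, h7]
    ring
  rw [h6] at h5
  exact lt_irrefl _ h5

end Pool.Agent.Lib.MP_42948a_nt.TV
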