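import Pool.Agent.Lib.MP_42948a_nt.TV.P2
import Pool.Agent.Lib.MP_42948a_nt.TS.St1

/-!
# The relations of the threshold sets from a sparse set of classes which are not represented
-/

set_option linter.unusedSectionVars false

namespace Pool.Agent.Lib.MP_42948a_nt.TV

open Finset Pool.Agent.Lib.MP_42948a_nt.OA Pool.Agent.Lib.MP_42948a_nt.TQ Pool.Agent.Lib.MP_42948a_nt.PS
  Pool.Agent.Lib.MP_42948a_nt.TF Pool.Agent.Lib.MP_42948a_nt.TS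

variable {d : ℕ} [NeZero d]

/-- the relations for the windows at `aT` and `aT - α` -/
theorem relsp {k : ℕ} (hk : 2 ≤ k) {X : Finset (DirichletCharacter ℂ d)} {η Q : ℝ} {β : (ZMod d)ˣ → ℝ}
    {b : DirichletCharacter ℂ d → ℝ} (hK : Ker X η Q β b) (hη : 0 ≤ η) {τ v C C2 D : ℝ} (hτ : 0 ≤ τ) (hv : 0 ≤ v)
    {α aT aB H hb E : ℝ} (hα : 0 < α)
    {κ : ℕ → ℝ} (hκ0 : ∀ i, 0 < κ i) (hX : ∀ χ, χ ∉ X → ‖Pa (PW d α (2 * α)) χ‖ ≤ τ) (hW : 1 / 20 ≤ Wt (PW d α (2 * α)))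
    (hCT : ∀ (i j : ℕ) (x : (ZMod d)ˣ), cv (den (EW d α i aT (aT + H))) (den (EW d α j aB (aB + H))) x ≤ C)
    (hCb : ∀ (i j : ℕ) (x : (ZMod d)ˣ), cv (den (EW d α i (aT - α) (aT - α + hb))) (den (EW d α j aB (aB + H))) x ≤ C)
    (hLT : ∀ (i : ℕ) (Ξ : Finset (DirichletCharacter ℂ d)), (∀ χ ∈ Ξ, v ≤ ‖Pa (PW d α (2 * α)) χ‖) →
      ∑ χ ∈ Ξ, ‖TR.DA (EW d α i aT (aT + H)) χ‖ ^ 2 ≤ C2)
    (hLb : ∀ (i : ℕ) (Ξ : Finset (DirichletCharacter ℂ d)), (∀ χ ∈ Ξ, v ≤ ‖Pa (PW d α (2 * α)) χ‖) →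
      ∑ χ ∈ Ξ, ‖TR.DA (EW d α i (aT - α) (aT - α + hb)) χ‖ ^ 2 ≤ C2)
    (hLB : ∀ (i : ℕ) (Ξ : Finset (DirichletCharacter ℂ d)), (∀ χ ∈ Ξ, v ≤ ‖Pa (PW d α (2 * α)) χ‖) →
      ∑ χ ∈ Ξ, ‖TR.DA (EW d α i aB (aB + H)) χ‖ ^ 2 ≤ C2)
    (hcT : ∀ j, 1 ≤ j → j + 3 ≤ k + 1 → ∀ x, ∃ i ∈ Icc 1 3, x ∈ Th d β α κ (i + (j - 1)) aT (aT + H))
    (hcb : ∀ j, 1 ≤ j → j + 3 ≤ k + 1 → ∀ x, ∃ i ∈ Icc 1 3, x ∈ Th d β α κ (i + (j - 1)) (aT - α) (aT - α + hb))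
    (hcB : ∀ j, 1 ≤ j → j + 2 ≤ k + 1 → ∀ x, ∃ i ∈ Icc 1 2, x ∈ Th d β α κ (i + (j - 1)) aB (aB + H))
    (hE : 2 * α + (aT + H) + (aB + H) ≤ E) (hhb : hb ≤ H) (S : Finset (ZMod d)ˣ) (hSne : S.Nonempty)
    (hD : (2 * η + τ) * C2 * mu (S : Set (ZMod d)ˣ) + v * C * √(mu (S : Set (ZMod d)ˣ)) ≤ D * mu (S : Set (ZMod d)ˣ))
    (hSE : ∀ z ∈ S, Unr d E α (k + 1) z) {e κm : ℝ} (hκm : 0 < κm)
    (hκm' : ∀ i, 1 ≤ i → i ≤ k → κm ≤ κ i) (he : 2 * k * D ≤ e * κm ^ 2) :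
    ∃ g, Rel k e g (fun i => Th d β α κ i aT (aT + H)) (fun i => Th d β α κ i aB (aB + H)) ∧
      Rel k e g (fun i => Th d β α κ i (aT - α) (aT - α + hb)) (fun i => Th d β α κ i aB (aB + H)) := by
  classical
  have hd : 1 ≤ d := NeZero.one_le
  have hC0 : 0 ≤ C := by
    refine le_trans ?_ (hCT 1 1 1)
    unfold cv
    exact av_nonneg fun y => mul_nonneg (den_nonneg _ _) (den_nonneg _ _)
  have hC20 : 0 ≤ C2 := by
    have h1 := hLT 1 ∅ (by simp)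
    rwa [sum_empty] at h1
  have hmuS : 0 < mu (S : Set (ZMod d)ˣ) := by
    rw [mu, Set.ncard_coe_finset]
    exact div_pos (by exact_mod_cast hSne.card_pos) card_pos
  have hD0 : 0 ≤ D := by
    have h1 : 0 ≤ (2 * η + τ) * C2 * mu (S : Set (ZMod d)ˣ) + v * C * √(mu (S : Set (ZMod d)ˣ)) := by positivity
    exact nonneg_of_mul_nonneg_left (h1.trans hD) hmuS
  obtain ⟨I, hI⟩ : ∃ I : Finset (Bool × ℕ), I = (univ : Finset Bool) ×ˢ Icc 1 (k - 1) := ⟨_, rfl⟩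
  obtain ⟨lo, hlo⟩ : ∃ lo : Bool → ℝ, lo = fun s => if s then aT else aT - α := ⟨_, rfl⟩
  obtain ⟨hi', hhi⟩ : ∃ hi : Bool → ℝ, hi = fun s => if s then aT + H else aT - α + hb := ⟨_, rfl⟩
  have hIc : (I.card : ℝ) ≤ 2 * k := by
    rw [hI, card_product, card_univ, Fintype.card_bool, Nat.card_Icc]
    have : k - 1 + 1 - 1 ≤ k := by omega
    have h2 : ((k - 1 + 1 - 1 : ℕ) : ℝ) ≤ k := by exact_mod_cast this
    push_cast at h2 ⊢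
    linarith
  have hup : ∀ s, hi' s ≤ aT + H := by
    intro s
    rw [hhi]
    cases s
    · show aT - α + hb ≤ aT + H
      linarith
    · exact le_rfl
  have hCs : ∀ q ∈ I, ∀ x : (ZMod d)ˣ, cv (den (EW d α q.2 (lo q.1) (hi' q.1))) (den (EW d α (k - q.2) aB (aB + H))) x ≤ C := by
    intro q _ x
    rw [hlo, hhi]
    rcases q with ⟨s, i⟩
    cases s
    · exact hCb _ _ _
    · exact hCT _ _ _
  have hLs : ∀ q ∈ I, ∀ Ξ : Finset (DirichletCharacter ℂ d), (∀ χ ∈ Ξ, v ≤ ‖Pa (PW d α (2 * α)) χ‖) →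
      ∑ χ ∈ Ξ, ‖TR.DA (EW d α q.2 (lo q.1) (hi' q.1)) χ‖ ^ 2 ≤ C2 := by
    intro q _ Ξ hΞ
    rw [hlo, hhi]
    rcases q with ⟨s, i⟩
    cases s
    · exact hLb _ Ξ hΞ
    · exact hLT _ Ξ hΞ
  have hW0 : 0 < Wt (PW d α (2 * α)) := by linarith
  obtain ⟨z, hz, p, hp, hzp⟩ := exists_gp I hK hη hτ hv (PW d α (2 * α)) (fun q => EW d α q.2 (lo q.1) (hi' q.1))
    (fun q => EW d α (k - q.2) aB (aB + H)) (fun p hp => PW_coprime hp) (fun q _ m hm => EW_coprime hm)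
    (fun q _ m hm => EW_coprime hm) hW0 hX hCs hLs (fun q _ => hLB _) S hSne hD (by
      intro z hz p hp q hq m hm n hn
      rw [hI] at hq
      obtain ⟨_, hq2⟩ := mem_product.1 hq
      obtain ⟨hq3, hq4⟩ := mem_Icc.1 hq2
      have h1 := prod_mem hd (E := E) (by linarith [hup q.1]) hp hm hn
      refine hSE z hz _ h1.1 h1.2.1 ?_
      rw [h1.2.2]
      omega)
  refine ⟨z * (ucl d p)⁻¹, ?_⟩
  have hbd : (I.card : ℝ) * D ≤ e * κm ^ 2 := (mul_le_mul_of_nonneg_right hIc hD0).trans he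
  have hpair : ∀ s : Bool, ∀ j, 1 ≤ j → j + 1 ≤ k →
      mu (Th d β α κ j (lo s) (hi' s) ∩ rf (z * (ucl d p)⁻¹) (Th d β α κ (k - j) aB (aB + H))) ≤ e := by
    intro s j hj1 hj2
    have h1 := hzp (s, j) (by
      rw [hI]
      exact mem_product.2 ⟨mem_univ _, mem_Icc.2 ⟨hj1, by omega⟩⟩)
    have h2 := pair_of_cv hK.nonneg (α := α) (a := lo s) (a' := hi' s) (b := aB) (b' := aB + H) (hκ0 j).le (hκ0 (k - j)).le
      (z * (ucl d p)⁻¹)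
    have h3 := h2.trans (h1.trans hbd)
    have h4 := hκm' j hj1 (by omega)
    have h5 := hκm' (k - j) (by omega) (by omega)
    have h6 : κm ^ 2 ≤ κ j * κ (k - j) := by
      rw [sq]
      exact mul_le_mul h4 h5 hκm.le (hκ0 _).le
    have h7 := mul_le_mul_of_nonneg_right h6 (mu_nonneg (Th d β α κ j (lo s) (hi' s) ∩
      rf (z * (ucl d p)⁻¹) (Th d β α κ (k - j) aB (aB + H))))
    have h8 : κm ^ 2 * mu (Th d β α κ j (lo s) (hi' s) ∩ rf (z * (ucl d p)⁻¹) (Th d β α κ (k - j) aB (aB + H))) ≤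
        κm ^ 2 * e := by linarith
    exact le_of_mul_le_mul_left h8 (by positivity)
  have hcovB : ∀ j, 1 ≤ j → j + 1 ≤ k → ∀ x, x ∈ Th d β α κ j aB (aB + H) ∨ x ∈ Th d β α κ (j + 1) aB (aB + H) := by
    intro j h1 h2 x
    have h3 := icc_two (hcB j h1 (by omega) x)
    rw [show 1 + (j - 1) = j by omega, show 2 + (j - 1) = j + 1 by omega] at h3
    exact h3
  refine ⟨⟨hcovB, ?_, ?_⟩, ⟨hcovB, ?_, ?_⟩⟩
  · intro j h1 h2 x
    have h3 := icc_three (hcT j h1 (by omega) x)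
    rw [show 1 + (j - 1) = j by omega, show 2 + (j - 1) = j + 1 by omega, show 3 + (j - 1) = j + 2 by omega] at h3
    exact h3
  · intro j h1 h2
    have h3 := hpair true j h1 h2
    rw [hlo, hhi] at h3
    exact h3
  · intro j h1 h2 x
    have h3 := icc_three (hcb j h1 (by omega) x)
    rw [show 1 + (j - 1) = j by omega, show 2 + (j - 1) = j + 1 by omega, show 3 + (j - 1) = j + 2 by omega] at h3
    exact h3
  · intro j h1 h2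
    have h3 := hpair false j h1 h2
    rw [hlo, hhi] at h3
    exact h3

end Pool.Agent.Lib.MP_42948a_nt.TV
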