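import Pool.Agent.Lib.MP_42948a_nt.TV.P2
import Pool.Agent.Lib.MP_42948a_nt.TR.S6
import Pool.Agent.Lib.MP_42948a_nt.TR.S8
import Pool.Agent.Lib.MP_42948a_nt.EX.Defs

/-!
# The classes of the wrong parity: lower bound for the smoothed function in every class
-/

set_option linter.unusedSectionVars false

namespace Pool.Agent.Lib.MP_42948a_nt.TV

open Finset Pool.Agent.Lib.MP_42948a_nt.OA Pool.Agent.Lib.MP_42948a_nt.TQ Pool.Agent.Lib.MP_42948a_nt.PS
  Pool.Agent.Lib.MP_42948a_nt.TF Pool.Agent.Lib.MP_42948a_nt.TS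

variable {d : ℕ} [NeZero d]

theorem SF_real (f : (ZMod d)ˣ → ℝ) (ψ : (ZMod d)ˣ →* ℤˣ) : SF f (EX.dch ψ) = ((∑ c, f c * rv ψ c : ℝ) : ℂ) := by
  unfold SF
  rw [Complex.ofReal_sum]
  refine sum_congr rfl fun c _ => ?_
  have h1 : ev (EX.dch ψ) c = ((rv ψ c : ℝ) : ℂ) := by
    unfold ev rv
    rw [EX.dch_coe]
    push_cast
    rfl
  rw [h1, Complex.conj_ofReal, Complex.ofReal_mul]

theorem Es_rv (ψ : (ZMod d)ˣ →* ℤˣ) (x : (ZMod d)ˣ) : TR.Es ψ (-1) x = (1 - rv ψ x) / 2 := by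
  unfold TR.Es rv
  rcases Int.units_eq_one_or (ψ x) with h | h
  · rw [h, if_neg (by decide)]
    norm_num
  · rw [h, if_pos rfl]
    norm_num

theorem sum_rv (ψ : (ZMod d)ˣ →* ℤˣ) (A : Finset ℕ) :
    ∑ n ∈ A, 1 / (n : ℝ) * rv ψ (ucl d n) = 2 * TR.qs ψ 1 A - Wt A := by
  have h1 := TR.qs_compl ψ A
  have h2 : ∑ n ∈ A, 1 / (n : ℝ) * rv ψ (ucl d n) = TR.qs ψ 1 A - TR.qs ψ (-1) A := by
    unfold TR.qs
    rw [← sum_filter_add_sum_filter_not A (fun n => ψ (ucl d n) = 1), sub_eq_add_neg, ← sum_neg_distrib]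
    refine congrArg₂ (· + ·) (sum_congr rfl fun n hn => ?_) ?_
    · unfold rv
      rw [(mem_filter.1 hn).2]
      norm_num
    · have h3 : A.filter (fun n => ¬ ψ (ucl d n) = 1) = A.filter (fun n => ψ (ucl d n) = -1) := by
        refine filter_congr fun n _ => ?_
        rcases Int.units_eq_one_or (ψ (ucl d n)) with h | h
        · rw [h]
          exact ⟨fun h1 => absurd rfl h1, fun h1 => absurd h1 (by decide)⟩
        · rw [h]
          exact ⟨fun _ => rfl, fun _ => by decide⟩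
      rw [h3]
      refine sum_congr rfl fun n hn => ?_
      unfold rv
      rw [(mem_filter.1 hn).2]
      norm_num
  rw [h2, h1]
  ring

/-- the mass of a smoothed set on the classes `ψ = -1` -/
theorem neg_mass {X : Finset (DirichletCharacter ℂ d)} {η Q : ℝ} {β : (ZMod d)ˣ → ℝ} {b : DirichletCharacter ℂ d → ℝ}
    (hK : Ker X η Q β b) (ψ : (ZMod d)ˣ →* ℤˣ) (A : Finset ℕ) (hq : 2 * TR.qs ψ 1 A ≤ Wt A) :
    Wt A / 2 ≤ av (fun u => sm β A u * TR.Es ψ (-1) u) := by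
  have hφ : (0 : ℝ) < (Fintype.card (ZMod d)ˣ : ℝ) := card_pos
  have h1 : (∑ c, sm β A c * rv ψ c) = (Fintype.card (ZMod d)ˣ : ℝ) * (b (EX.dch ψ) * (2 * TR.qs ψ 1 A - Wt A)) := by
    have h2 := SF_sm β A (EX.dch ψ)
    rw [SF_real, hK.coef] at h2
    have h3 : ∑ n ∈ A, ((1 / (n : ℝ) : ℝ) : ℂ) * (starRingEnd ℂ) (ev (EX.dch ψ) (ucl d n)) =
        ((2 * TR.qs ψ 1 A - Wt A : ℝ) : ℂ) := by
      rw [← sum_rv, Complex.ofReal_sum]
      refine sum_congr rfl fun n _ => ?_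
      have h4 : ev (EX.dch ψ) (ucl d n) = ((rv ψ (ucl d n) : ℝ) : ℂ) := by
        unfold ev rv
        rw [EX.dch_coe]
        push_cast
        rfl
      rw [h4, Complex.conj_ofReal, Complex.ofReal_mul]
    rw [h3, ← Complex.ofReal_mul] at h2
    rw [Complex.ofReal_injective h2]
    ring
  have h2 : av (sm β A) = Wt A := av_sm hK A
  have h3 : av (fun u => sm β A u * TR.Es ψ (-1) u) = (Wt A - b (EX.dch ψ) * (2 * TR.qs ψ 1 A - Wt A)) / 2 := by
    have h4 : ∀ u, sm β A u * TR.Es ψ (-1) u = (sm β A u - sm β A u * rv ψ u) / 2 := by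
      intro u
      rw [Es_rv]
      ring
    unfold av at h2 ⊢
    rw [sum_congr rfl fun u _ => h4 u, ← sum_div, sum_sub_distrib, h1]
    rw [div_eq_iff hφ.ne'] at h2
    rw [h2]
    field_simp
  rw [h3]
  have h4 := hK.b_nonneg (EX.dch ψ)
  nlinarith

theorem av_ind_rf (Bd : Set (ZMod d)ˣ) (c : (ZMod d)ˣ) :
    av (fun x => Bd.indicator (fun _ => (1 : ℝ)) (c * x⁻¹)) = TS.mu Bd := by
  rw [av_inv, TR.mu_av]

/-- a structured function and a bounded function with mass on `ψ = -1`: the convolution is large in every class of the right sign -/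
theorem cv_low {f g : (ZMod d)ˣ → ℝ} (hf0 : ∀ x, 0 ≤ f x) (hg0 : ∀ x, 0 ≤ g x) {C0 κ m ε : ℝ} (hfC : ∀ x, f x ≤ C0)
    (hκ : 0 ≤ κ) (ψ : (ZMod d)ˣ →* ℤˣ) (s : ℤˣ) (hg : TS.mu (symmDiff {x | κ < g x} {x | ψ x = s}) ≤ ε)
    (hm : m ≤ av (fun u => f u * TR.Es ψ (-1) u)) (x : (ZMod d)ˣ) :
    κ * (m - C0 * ε) * TR.Es ψ (s * (-1)) x ≤ cv f g x := by
  classical
  have hC0 : 0 ≤ C0 := (hf0 1).trans (hfC 1)
  have hcv0 : 0 ≤ cv f g x := av_nonneg fun y => mul_nonneg (hf0 y) (hg0 _)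
  by_cases hx : ψ x = s * (-1)
  · obtain ⟨Bd, hBd⟩ : ∃ Bd : Set (ZMod d)ˣ, Bd = symmDiff {x | κ < g x} {x | ψ x = s} := ⟨_, rfl⟩
    have hI0 : ∀ x, 0 ≤ Bd.indicator (fun _ => (1 : ℝ)) x := fun x => Set.indicator_nonneg (fun _ _ => zero_le_one) x
    -- the pointwise lower bound
    have hlow : ∀ y, κ * (TR.Es ψ s y - Bd.indicator (fun _ => (1 : ℝ)) y) ≤ g y := by
      intro y
      have h0 := hg0 y
      by_cases h1 : ψ y = s
      · by_cases h2 : κ < g y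
        · have h3 : y ∉ Bd := by
            rw [hBd, Set.mem_symmDiff]
            rintro (⟨-, h⟩ | ⟨-, h⟩)
            · exact h h1
            · exact h h2
          rw [Set.indicator_of_notMem h3]
          unfold TR.Es
          rw [if_pos h1]
          linarith
        · have h3 : y ∈ Bd := by
            rw [hBd, Set.mem_symmDiff]
            exact Or.inr ⟨h1, h2⟩
          rw [Set.indicator_of_mem h3]
          unfold TR.Es
          rw [if_pos h1]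
          linarith
      · unfold TR.Es
        rw [if_neg h1]
        have h4 := hI0 y
        nlinarith
    have hE : ∀ y, TR.Es ψ s (x * y⁻¹) = TR.Es ψ (-1) y := by
      intro y
      unfold TR.Es
      rw [map_mul, map_inv, hx]
      rcases Int.units_eq_one_or (ψ y) with h | h <;> rcases Int.units_eq_one_or s with h2 | h2 <;> rw [h, h2] <;> rfl
    have h1 : av (fun y => κ * (f y * TR.Es ψ (-1) y) - κ * (C0 * Bd.indicator (fun _ => (1 : ℝ)) (x * y⁻¹))) ≤ cv f g x := by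
      unfold cv
      refine av_mono fun y => ?_
      have h2 := hlow (x * y⁻¹)
      rw [hE] at h2
      have h3 := mul_le_mul_of_nonneg_left h2 (hf0 y)
      have h4 : f y * Bd.indicator (fun _ => (1 : ℝ)) (x * y⁻¹) ≤ C0 * Bd.indicator (fun _ => (1 : ℝ)) (x * y⁻¹) :=
        mul_le_mul_of_nonneg_right (hfC y) (hI0 _)
      have h5 := mul_le_mul_of_nonneg_left h4 hκ
      refine le_trans ?_ h3
      linarith
    have h2 : av (fun y => κ * (f y * TR.Es ψ (-1) y) - κ * (C0 * Bd.indicator (fun _ => (1 : ℝ)) (x * y⁻¹))) =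
        κ * av (fun u => f u * TR.Es ψ (-1) u) - κ * (C0 * TS.mu Bd) := by
      have h3 := av_mul_left κ (fun y : (ZMod d)ˣ => f y * TR.Es ψ (-1) y)
      have h4 := av_mul_left (κ * C0) (fun y : (ZMod d)ˣ => Bd.indicator (fun _ => (1 : ℝ)) (x * y⁻¹))
      rw [av_ind_rf] at h4
      have h5 : ∀ y : (ZMod d)ˣ, κ * (f y * TR.Es ψ (-1) y) - κ * (C0 * Bd.indicator (fun _ => (1 : ℝ)) (x * y⁻¹)) =
          κ * (f y * TR.Es ψ (-1) y) - (κ * C0) * Bd.indicator (fun _ => (1 : ℝ)) (x * y⁻¹) := fun y => by ring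
      unfold av at h3 h4 ⊢
      rw [sum_congr rfl fun y _ => h5 y, sum_sub_distrib, sub_div, h3, h4]
      ring
    rw [h2] at h1
    have h3 : TS.mu Bd ≤ ε := by
      rw [hBd]
      exact hg
    have h4 : C0 * TS.mu Bd ≤ C0 * ε := mul_le_mul_of_nonneg_left h3 hC0
    unfold TR.Es
    rw [if_pos hx, mul_one]
    refine le_trans ?_ h1
    have h5 : m - C0 * ε ≤ av (fun u => f u * TR.Es ψ (-1) u) - C0 * TS.mu Bd := by linarith
    have h6 := mul_le_mul_of_nonneg_left h5 hκ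
    linarith
  · unfold TR.Es
    rw [if_neg hx, mul_zero]
    exact hcv0

theorem G_low (ψ : (ZMod d)ˣ →* ℤˣ) (s : ℤˣ) (k : ℕ) (P T : Finset ℕ) (hT : ∀ t ∈ T, ψ (ucl d t) = 1) {F : (ZMod d)ˣ → ℝ} {c : ℝ}
    (hc : 0 ≤ c) (hF : ∀ x, c * TR.Es ψ s x ≤ F x) (x : (ZMod d)ˣ) :
    c * Wt T * TR.qs ψ (-1) P ^ k * TR.Es ψ (s * (-1) ^ k) x ≤ TR.mus (List.replicate k P ++ [T]) F x := by
  have h0 : TR.qs ψ 1 T = Wt T := by
    unfold TR.qs Wt
    rw [Finset.filter_true_of_mem hT]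
  have h1 : ∀ y, c * Wt T * TR.Es ψ s y ≤ TR.mus [T] F y := by
    intro y
    rw [TR.mus_cons, TR.mus_nil]
    have h2 : TR.mu T (fun z => c * TR.Es ψ s z) y ≤ TR.mu T F y := TR.mu_mono T hF y
    rw [TR.mu_smul] at h2
    refine le_trans ?_ h2
    have h3 := TR.mu_Es ψ s 1 T y
    rw [h0, mul_one] at h3
    have h4 := mul_le_mul_of_nonneg_left h3 hc
    linarith
  rw [TR.mus_append]
  exact TR.mus_rep_Es ψ P (TR.mus [T] F) (c * Wt T) (mul_nonneg hc (sum_nonneg fun n _ => by positivity)) s h1 k x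

theorem mu_dl (W : Finset ℕ) (x : (ZMod d)ˣ) : TR.mu W (TR.dl d) x = den W x := by
  classical
  unfold TR.mu TR.dl den
  rw [mul_sum]
  refine sum_congr rfl fun n _ => ?_
  by_cases h : ucl d n = x
  · rw [if_pos h, if_pos (by rw [h, mul_inv_cancel])]
    ring
  · rw [if_neg h, if_neg, mul_zero, mul_zero]
    intro h1
    exact h (mul_inv_eq_one.1 h1).symm

theorem cv_den_mu (A : Finset ℕ) (f : (ZMod d)ˣ → ℝ) (x : (ZMod d)ˣ) : cv (den A) f x = TR.mu A f x := by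
  classical
  have hφ : (0 : ℝ) < (Fintype.card (ZMod d)ˣ : ℝ) := card_pos
  unfold cv av den TR.mu
  rw [div_eq_iff hφ.ne', sum_mul]
  have h1 : ∀ y : (ZMod d)ˣ, (Fintype.card (ZMod d)ˣ : ℝ) * (∑ n ∈ A, if ucl d n = y then 1 / (n : ℝ) else 0) * f (x * y⁻¹) =
      ∑ n ∈ A, if ucl d n = y then 1 / (n : ℝ) * f (x * (ucl d n)⁻¹) * (Fintype.card (ZMod d)ˣ : ℝ) else 0 := by
    intro y
    rw [mul_sum, sum_mul]
    refine sum_congr rfl fun n _ => ?_
    by_cases h : ucl d n = y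
    · rw [if_pos h, if_pos h, h]
      ring
    · rw [if_neg h, if_neg h, mul_zero, zero_mul]
  rw [sum_congr rfl fun y _ => h1 y, sum_comm]
  refine sum_congr rfl fun n _ => ?_
  rw [sum_ite_eq, if_pos (mem_univ _)]

theorem cv_den_mus (A B : Finset ℕ) : (cv (den A) (den B) : (ZMod d)ˣ → ℝ) = TR.mus [A, B] (TR.dl d) := by
  funext x
  rw [cv_den_mu, TR.mus_cons, TR.mus_cons, TR.mus_nil]
  have h1 : TR.mu B (TR.dl d) = den B := funext fun y => mu_dl B y
  rw [h1]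

end Pool.Agent.Lib.MP_42948a_nt.TV
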