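import Pool.Agent.Lib.MP_42948a_nt.TV.P4

/-!
# The classes of the wrong parity which are not represented form a sparse set
-/

set_option linter.unusedSectionVars false

namespace Pool.Agent.Lib.MP_42948a_nt.TV

open Finset Pool.Agent.Lib.MP_42948a_nt.OA Pool.Agent.Lib.MP_42948a_nt.TQ Pool.Agent.Lib.MP_42948a_nt.PS
  Pool.Agent.Lib.MP_42948a_nt.TF Pool.Agent.Lib.MP_42948a_nt.TS

variable {d : ℕ} [NeZero d]

theorem prod_DA1 (P T : Finset ℕ) (k : ℕ) (χ : DirichletCharacter ℂ d) :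
    ‖((List.replicate k P ++ [T]).map fun A => TR.DA A χ).prod‖ = ‖TR.DA P χ‖ ^ k * ‖TR.DA T χ‖ := by
  rw [List.map_append, List.prod_append, List.map_replicate, List.prod_replicate, List.map_cons,
    List.map_nil, List.prod_cons, List.prod_nil, mul_one, norm_mul, norm_pow]

/-- the sum of the smoothed function over a sparse set of classes which are not represented -/
theorem wsum {X : Finset (DirichletCharacter ℂ d)} {η Q : ℝ} {β : (ZMod d)ˣ → ℝ} {b : DirichletCharacter ℂ d → ℝ}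
    (hK : Ker X η Q β b) (hη : 0 ≤ η) {τ v R C2 : ℝ} (hτ : 0 ≤ τ) (hv : 0 ≤ v) {P T P' W : Finset ℕ} {k : ℕ} (hk : 1 ≤ k)
    (hP : ∀ p ∈ P, p.Coprime d) (hWP : 0 < Wt P) (hX : ∀ χ, χ ∉ X → ‖Pa P χ‖ ≤ τ)
    (hsup : ∀ x : (ZMod d)ˣ, TR.mus [T, P', W] (TR.dl d) x ≤ R)
    (hLP : ∀ Ξ : Finset (DirichletCharacter ℂ d), (∀ χ ∈ Ξ, v ≤ ‖Pa P χ‖) → ∑ χ ∈ Ξ, ‖TR.DA P' χ‖ ^ 2 ≤ C2)
    (hLW : ∀ Ξ : Finset (DirichletCharacter ℂ d), (∀ χ ∈ Ξ, v ≤ ‖Pa P χ‖) → ∑ χ ∈ Ξ, ‖TR.DA W χ‖ ^ 2 ≤ C2)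
    (E : Finset (ZMod d)ˣ) (hE : ∀ z ∈ E, TR.mus (List.replicate k P ++ [T, P', W]) (TR.dl d) z = 0) :
    ∑ z ∈ E, TR.mus (List.replicate k P ++ [T]) (cv (sm β P') (sm β W)) z ≤
      (Fintype.card (ZMod d)ˣ : ℝ) * (Wt P ^ k * ((2 * η + τ) * (Wt T * C2) * mu (E : Set (ZMod d)ˣ) +
        v * √(R * (Wt T * (Wt P' * Wt W))) * √(mu (E : Set (ZMod d)ˣ)))) := by
  classical
  have hφ : (0 : ℝ) < (Fintype.card (ZMod d)ˣ : ℝ) := card_pos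
  have hφC : (Fintype.card (ZMod d)ˣ : ℂ) ≠ 0 := by exact_mod_cast (Fintype.card_pos (α := (ZMod d)ˣ)).ne'
  obtain ⟨L, hL⟩ : ∃ L : List (Finset ℕ), L = List.replicate k P ++ [T] := ⟨_, rfl⟩
  obtain ⟨F, hF⟩ : ∃ F : (ZMod d)ˣ → ℝ, F = cv (den P') (den W) := ⟨_, rfl⟩
  obtain ⟨S, hS⟩ : ∃ S : (ZMod d)ˣ → ℝ, S = cv (sm β P') (sm β W) := ⟨_, rfl⟩
  -- the coefficients
  have hSF : ∀ χ, SF S χ = ((b χ ^ 2 : ℝ) : ℂ) * SF F χ := by
    intro χ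
    have h1 := SF_cv (sm β P') (sm β W) χ
    have h2 := SF_cv (den P') (den W) χ
    rw [SF_sm, SF_sm, hK.coef] at h1
    rw [SF_den, SF_den] at h2
    rw [← hS] at h1
    rw [← hF] at h2
    apply mul_left_cancel₀ hφC
    rw [h1]
    have h3 : (Fintype.card (ZMod d)ˣ : ℂ) * (((b χ ^ 2 : ℝ) : ℂ) * SF F χ) =
        ((b χ ^ 2 : ℝ) : ℂ) * ((Fintype.card (ZMod d)ˣ : ℂ) * SF F χ) := by ring
    rw [h3, h2]
    push_cast
    ring
  obtain ⟨h, hh⟩ : ∃ h : (ZMod d)ˣ → ℝ, h = fun z => TR.mus L S z - TR.mus L F z := ⟨_, rfl⟩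
  have hSh : ∀ χ, SF h χ = (L.map fun A => TR.DA A χ).prod * (((b χ ^ 2 - 1 : ℝ) : ℂ) * SF F χ) := by
    intro χ
    have h1 : SF h χ = SF (TR.mus L S) χ - SF (TR.mus L F) χ := by
      rw [hh]
      exact SF_sub _ _ _
    rw [h1, TR.SF_mus, TR.SF_mus, hSF]
    push_cast
    ring
  have hPa1 : ∀ χ : DirichletCharacter ℂ d, ‖Pa P χ‖ ≤ 1 := fun χ => norm_Pa_le P χ
  have hk0 : k ≠ 0 := by omega
  have hnorm : ∀ χ, ‖SF h χ‖ ≤ (Fintype.card (ZMod d)ˣ : ℝ) *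
      (Wt P ^ k * ((1 - b χ ^ 2) * ‖Pa P χ‖ * (‖TR.DA T χ‖ * (‖TR.DA P' χ‖ * ‖TR.DA W χ‖)))) := by
    intro χ
    have hb0 := hK.b_nonneg χ
    have hb1 := hK.b_le χ
    have h0 : 0 ≤ 1 - b χ ^ 2 := by nlinarith
    have h1 : |b χ ^ 2 - 1| = 1 - b χ ^ 2 := by
      rw [abs_of_nonpos (by linarith)]
      ring
    have h2 : ‖Pa P χ‖ ^ k ≤ ‖Pa P χ‖ := pow_le_of_le_one (norm_nonneg _) (hPa1 χ) hk0
    rw [hSh, norm_mul, norm_mul, hL, prod_DA1, TR.DA_Pa P hP hWP, Complex.norm_real, Real.norm_eq_abs, h1, hF, norm_SF_cvden]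
    calc (Wt P * ‖Pa P χ‖) ^ k * ‖TR.DA T χ‖ * ((1 - b χ ^ 2) * ((Fintype.card (ZMod d)ˣ : ℝ) * (‖TR.DA P' χ‖ * ‖TR.DA W χ‖))) =
          (Fintype.card (ZMod d)ˣ : ℝ) * (Wt P ^ k * ((1 - b χ ^ 2) * ‖Pa P χ‖ ^ k * (‖TR.DA T χ‖ * (‖TR.DA P' χ‖ * ‖TR.DA W χ‖)))) := by
          rw [mul_pow]
          ring
      _ ≤ _ := by
          refine mul_le_mul_of_nonneg_left (mul_le_mul_of_nonneg_left (mul_le_mul_of_nonneg_right
            (mul_le_mul_of_nonneg_left h2 h0) (by positivity)) (by positivity)) hφ.le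
  have key := sparse hK hη hτ hv (w := Wt P ^ k) (by positivity) P hX (fun χ => ‖TR.DA T χ‖ * (‖TR.DA P' χ‖ * ‖TR.DA W χ‖))
    (fun χ => by positivity) h hnorm (C2 := Wt T * C2) (R2 := R * (Wt T * (Wt P' * Wt W)))
    (fun Ξ hΞ => by
      have h1 := sum_DA_le (hLP Ξ hΞ) (hLW Ξ hΞ)
      have hT0 : 0 ≤ Wt T := TR.Wt_nonneg' T
      calc ∑ χ ∈ Ξ, ‖TR.DA T χ‖ * (‖TR.DA P' χ‖ * ‖TR.DA W χ‖) ≤ ∑ χ ∈ Ξ, Wt T * (‖TR.DA P' χ‖ * ‖TR.DA W χ‖) :=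
            sum_le_sum fun χ _ => mul_le_mul_of_nonneg_right (TR.DA_le T χ) (by positivity)
        _ = Wt T * ∑ χ ∈ Ξ, ‖TR.DA P' χ‖ * ‖TR.DA W χ‖ := by rw [mul_sum]
        _ ≤ Wt T * C2 := mul_le_mul_of_nonneg_left h1 hT0)
    (TR.av_sq_three hsup) E
  -- the classes in `E`
  have hEz : ∀ z ∈ E, TR.mus L S z = h z := by
    intro z hz
    have h1 : TR.mus L F z = 0 := by
      have h2 := hE z hz
      have h3 : List.replicate k P ++ [T, P', W] = L ++ [P', W] := by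
        rw [hL, List.append_assoc]
        rfl
      rw [h3, TR.mus_append, ← cv_den_mus, ← hF] at h2
      exact h2
    rw [hh]
    show _ = TR.mus L S z - TR.mus L F z
    rw [h1, sub_zero]
  have h9 : ∑ z ∈ E, TR.mus (List.replicate k P ++ [T]) (cv (sm β P') (sm β W)) z = ∑ z ∈ E, h z := by
    rw [← hL, ← hS]
    exact sum_congr rfl hEz
  rw [h9]
  exact key

/-- from the mean inequality to the measure -/
theorem msol {m a u : ℝ} (hm : 0 ≤ m) (ha : 0 < a) (h : m * a ≤ u * √m) : m ≤ (u / a) ^ 2 := by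
  rcases hm.eq_or_lt with h4 | h4
  · rw [← h4]
    positivity
  · have h5 : 0 < √m := Real.sqrt_pos.2 h4
    have h6 : √m * √m = m := Real.mul_self_sqrt hm
    have h7 : √m ≤ u / a := by
      rw [le_div_iff₀ ha]
      have h8 : √m * (√m * a) ≤ √m * u := by
        calc √m * (√m * a) = (√m * √m) * a := by ring
          _ = m * a := by rw [h6]
          _ ≤ u * √m := h
          _ = √m * u := by ring
      exact le_of_mul_le_mul_left h8 h5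
    calc m = √m * √m := h6.symm
      _ ≤ (u / a) * (u / a) := mul_le_mul h7 h7 h5.le (h5.le.trans h7)
      _ = (u / a) ^ 2 := by ring

/-- the set of the classes of one parity without a representation is sparse -/
theorem structp (ψ : (ZMod d)ˣ →* ℤˣ) (s : ℤˣ) {k : ℕ} (hk : 1 ≤ k) {P T P' W : Finset ℕ}
    {X : Finset (DirichletCharacter ℂ d)} {η Q : ℝ} {β : (ZMod d)ˣ → ℝ} {b : DirichletCharacter ℂ d → ℝ}
    (hK : Ker X η Q β b) (hη : 0 ≤ η) {τ v R C2 C0 κ σ ω ε : ℝ} (hτ : 0 ≤ τ) (hv : 0 ≤ v) (hP : ∀ p ∈ P, p.Coprime d)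
    (hX : ∀ χ, χ ∉ X → ‖Pa P χ‖ ≤ τ)
    (hω : 0 < ω) (hWP : ω ≤ Wt P) (hWP' : ω ≤ Wt P') (hT0 : 0 < Wt T) (hσ : σ * (4 * (k + 1)) ≤ ω)
    (hPσ : TR.qs ψ 1 P ≤ σ) (hPσ' : TR.qs ψ 1 P' ≤ σ) (hT : ∀ t ∈ T, ψ (ucl d t) = 1) (hκ : 0 < κ)
    (hC0 : ∀ x : (ZMod d)ˣ, sm β P' x ≤ C0)
    (hε : TS.mu (symmDiff {x | κ < sm β W x} {x | ψ x = s}) ≤ ε) (hε0 : C0 * ε ≤ ω / 4)
    (hsup : ∀ x : (ZMod d)ˣ, TR.mus [T, P', W] (TR.dl d) x ≤ R) (hC2 : (2 * η + τ) * C2 ≤ κ * ω / 16)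
    (hLP : ∀ Ξ : Finset (DirichletCharacter ℂ d), (∀ χ ∈ Ξ, v ≤ ‖Pa P χ‖) → ∑ χ ∈ Ξ, ‖TR.DA P' χ‖ ^ 2 ≤ C2)
    (hLW : ∀ Ξ : Finset (DirichletCharacter ℂ d), (∀ χ ∈ Ξ, v ≤ ‖Pa P χ‖) → ∑ χ ∈ Ξ, ‖TR.DA W χ‖ ^ 2 ≤ C2) :
    TS.mu {x | ψ x = s * (-1) ^ (k + 1) ∧ TR.mus (List.replicate k P ++ [T, P', W]) (TR.dl d) x = 0} ≤
      (v * √(R * (Wt T * (Wt P' * Wt W))) / (Wt T * (κ * ω / 16))) ^ 2 := by
  classical
  have hφ : (0 : ℝ) < (Fintype.card (ZMod d)ˣ : ℝ) := card_pos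
  have hP0 : 0 < Wt P := by linarith
  have hP'0 : 0 < Wt P' := by linarith
  obtain ⟨E, hE⟩ : ∃ E : Finset (ZMod d)ˣ, E = univ.filter (fun x => ψ x = s * (-1) ^ (k + 1) ∧
      TR.mus (List.replicate k P ++ [T, P', W]) (TR.dl d) x = 0) := ⟨_, rfl⟩
  have hEc : (E : Set (ZMod d)ˣ) = {x | ψ x = s * (-1) ^ (k + 1) ∧ TR.mus (List.replicate k P ++ [T, P', W]) (TR.dl d) x = 0} := by
    rw [hE]
    ext z
    simp
  rw [← hEc]
  have hsm0 : ∀ (A : Finset ℕ) (x : (ZMod d)ˣ), 0 ≤ sm β A x := fun A x => sm_nonneg hK.nonneg A x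
  have hσ0 : 0 ≤ σ := (TR.qs_nonneg ψ 1 P).trans hPσ
  -- the lower bound
  have hkR : (1 : ℝ) ≤ k := by exact_mod_cast hk
  have hm := neg_mass hK ψ P' (by nlinarith)
  obtain ⟨c, hc⟩ : ∃ c : ℝ, c = κ * (ω / 4) := ⟨_, rfl⟩
  have hc0 : 0 < c := by
    rw [hc]
    positivity
  have hlow1 : ∀ x, c * TR.Es ψ (s * (-1)) x ≤ cv (sm β P') (sm β W) x := by
    intro x
    refine le_trans ?_ (cv_low (hsm0 P') (hsm0 W) hC0 hκ.le ψ s hε hm x)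
    refine mul_le_mul_of_nonneg_right ?_ (TR.Es_nonneg _ _ _)
    rw [hc]
    refine mul_le_mul_of_nonneg_left ?_ hκ.le
    linarith
  have hqP : Wt P ^ k / 2 ≤ TR.qs ψ (-1) P ^ k := by
    have h1 := TR.mass_lower (k := k) (p := Wt P) (q := Wt P') (a := TR.qs ψ (-1) P) (b := Wt P') hω hWP hWP' hσ0 hσ
      (by rw [TR.qs_compl]; linarith) (by linarith)
    have h2 : 3 / 4 * Wt P ^ k * Wt P' ≤ TR.qs ψ (-1) P ^ k * Wt P' := by linarith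
    have h3 := le_of_mul_le_mul_right h2 hP'0
    have h4 : 0 ≤ Wt P ^ k := by positivity
    linarith
  have hlow2 : ∀ z ∈ E, Wt T * Wt P ^ k * (c / 2) ≤ TR.mus (List.replicate k P ++ [T]) (cv (sm β P') (sm β W)) z := by
    intro z hz
    rw [hE] at hz
    obtain ⟨h1, -⟩ := (mem_filter.1 hz).2
    have h2 := G_low ψ (s * (-1)) k P T hT hc0.le hlow1 z
    have h3 : TR.Es ψ (s * (-1) * (-1) ^ k) z = 1 := by
      unfold TR.Es
      rw [if_pos]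
      rw [h1, pow_succ' (-1 : ℤˣ) k, mul_assoc]
    rw [h3, mul_one] at h2
    refine le_trans ?_ h2
    have h4 := mul_le_mul_of_nonneg_left hqP (show 0 ≤ c * Wt T by positivity)
    refine le_trans (le_of_eq ?_) h4
    ring
  have hup := wsum hK hη hτ hv hk hP hP0 hX hsup hLP hLW E (fun z hz => by
    rw [hE] at hz
    exact (mem_filter.1 hz).2.2)
  have hlow3 : (E.card : ℝ) * (Wt T * Wt P ^ k * (c / 2)) ≤
      ∑ z ∈ E, TR.mus (List.replicate k P ++ [T]) (cv (sm β P') (sm β W)) z := by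
    rw [← nsmul_eq_mul, ← sum_const]
    exact sum_le_sum hlow2
  obtain ⟨m, hmd⟩ : ∃ m, m = mu (E : Set (ZMod d)ˣ) := ⟨_, rfl⟩
  have hmu : (E.card : ℝ) = (Fintype.card (ZMod d)ˣ : ℝ) * m := by
    rw [hmd, mu, Set.ncard_coe_finset, mul_div_cancel₀ _ hφ.ne']
  have hm0 : 0 ≤ m := by
    rw [hmd]
    exact TS.mu_nonneg _
  rw [← hmd] at hup ⊢
  have h1 := hlow3.trans hup
  rw [hmu] at h1
  have h2 : m * (Wt T * (κ * ω / 8)) ≤ (2 * η + τ) * (Wt T * C2) * m + v * √(R * (Wt T * (Wt P' * Wt W))) * √m := by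
    have h3 : (Fintype.card (ZMod d)ˣ : ℝ) * Wt P ^ k * (m * (Wt T * (κ * ω / 8))) ≤
        (Fintype.card (ZMod d)ˣ : ℝ) * Wt P ^ k *
          ((2 * η + τ) * (Wt T * C2) * m + v * √(R * (Wt T * (Wt P' * Wt W))) * √m) := by
      refine le_trans (le_of_eq ?_) (h1.trans (le_of_eq ?_))
      · rw [hc]
        ring
      · ring
    exact le_of_mul_le_mul_left h3 (by positivity)
  have h3 : (2 * η + τ) * (Wt T * C2) * m ≤ m * (Wt T * (κ * ω / 16)) := by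
    have h4 := mul_le_mul_of_nonneg_left hC2 (show 0 ≤ m * Wt T by positivity)
    refine le_trans (le_of_eq ?_) (h4.trans (le_of_eq ?_))
    · ring
    · ring
  refine msol hm0 (by positivity) ?_
  linarith

end Pool.Agent.Lib.MP_42948a_nt.TV
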