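import Pool.Agent.Lib.MP_42948a_nt.TV.P5
import Pool.Agent.Lib.MP_42948a_nt.TS.St4
import Pool.Agent.Lib.MP_42948a_nt.TR.S10a
import Pool.Agent.Lib.MP_42948a_nt.TR.S4

/-!
# The right parity; few characters for all the windows; the sets of the wrong parity
-/

set_option linter.unusedSectionVars false

namespace Pool.Agent.Lib.MP_42948a_nt.TV

open Finset Pool.Agent.Lib.MP_42948a_nt.OA Pool.Agent.Lib.MP_42948a_nt.AC Pool.Agent.Lib.MP_42948a_nt.TQ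
  Pool.Agent.Lib.MP_42948a_nt.PS Pool.Agent.Lib.MP_42948a_nt.TF Pool.Agent.Lib.MP_42948a_nt.TS

open Classical in
/-- the classes of the right parity which are not represented form a sparse set -/
theorem right_smallp {d : ℕ} [NeZero d] {ψ : (ZMod d)ˣ →* ℤˣ} (hψ : ψ ≠ 1) {U : Finset ℕ} (hW : 0 < Wt U)
    (hU : ∑ p ∈ U.filter (fun p => ψ (ucl d p) = 1), 1 / (p : ℝ) ≤ Wt U / 2) {T B : Set (ZMod d)ˣ} {i j : ℕ} {ε : ℝ}
    (hT : mu (symmDiff T {x | ψ x = (-1) ^ i}) ≤ ε) (hB : mu (symmDiff B {x | ψ x = (-1) ^ j}) ≤ ε) (hε : ε ≤ 1 / 8)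
    {f : (ZMod d)ˣ → ℝ} {a D V : ℝ} (ha : 0 < a) (hf0 : ∀ g, 0 ≤ f g) (hf : ∀ g, a * mu (T ∩ rf g B) ≤ f g) (E : Finset (ZMod d)ˣ)
    (hE : ∀ z ∈ E, ψ z = (-1) ^ (i + j + 1)) (hD : D ≤ a / 16)
    (hblk : ∑ z ∈ E, ∑ p ∈ U, 1 / (p : ℝ) * f (z * (ucl d p)⁻¹) ≤
      (Fintype.card (ZMod d)ˣ : ℝ) * (Wt U * (D * mu (E : Set (ZMod d)ˣ) + V * √(mu (E : Set (ZMod d)ˣ))))) :
    mu (E : Set (ZMod d)ˣ) ≤ (V / (a / 16)) ^ 2 := by
  have hφ : (0 : ℝ) < (Fintype.card (ZMod d)ˣ : ℝ) := card_pos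
  -- the inert primes
  have h1 : ∀ z ∈ E, Wt U * (a / 8) ≤ ∑ p ∈ U, 1 / (p : ℝ) * f (z * (ucl d p)⁻¹) := by
    intro z hz
    have h2 : ∑ p ∈ U.filter (fun p => ¬ ψ (ucl d p) = 1), 1 / (p : ℝ) * (a / 4) ≤ ∑ p ∈ U, 1 / (p : ℝ) * f (z * (ucl d p)⁻¹) := by
      refine le_trans (sum_le_sum fun p hp => ?_) (sum_le_sum_of_subset_of_nonneg (filter_subset _ _) fun p _ _ =>
        mul_nonneg (by positivity) (hf0 _))
      refine mul_le_mul_of_nonneg_left ?_ (by positivity)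
      have h3 : ψ (ucl d p) = -1 := by
        rcases Int.units_eq_one_or (ψ (ucl d p)) with h | h
        · exact absurd h (mem_filter.1 hp).2
        · exact h
      have h4 : ψ (z * (ucl d p)⁻¹) = (-1) ^ (i + j) := by
        rw [map_mul, map_inv, hE z hz, h3, pow_succ, mul_inv_cancel_right]
      have h5 := mu_pair_psi hψ hT hB h4
      have h6 := hf (z * (ucl d p)⁻¹)
      nlinarith
    have h3 : ∑ p ∈ U.filter (fun p => ¬ ψ (ucl d p) = 1), 1 / (p : ℝ) = Wt U - ∑ p ∈ U.filter (fun p => ψ (ucl d p) = 1), 1 / (p : ℝ) := by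
      rw [Wt, ← sum_filter_add_sum_filter_not U (fun p => ψ (ucl d p) = 1)]
      ring
    rw [← sum_mul, h3] at h2
    nlinarith
  have h2 : (E.card : ℝ) * (Wt U * (a / 8)) ≤ ∑ z ∈ E, ∑ p ∈ U, 1 / (p : ℝ) * f (z * (ucl d p)⁻¹) := by
    rw [← nsmul_eq_mul, ← sum_const]
    exact sum_le_sum h1
  obtain ⟨m, hmd⟩ : ∃ m, m = mu (E : Set (ZMod d)ˣ) := ⟨_, rfl⟩
  have hmu : (E.card : ℝ) = (Fintype.card (ZMod d)ˣ : ℝ) * m := by
    rw [hmd, mu, Set.ncard_coe_finset, mul_div_cancel₀ _ hφ.ne']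
  have hm0 : 0 ≤ m := by
    rw [hmd]
    exact TS.mu_nonneg _
  rw [← hmd] at hblk ⊢
  rw [hmu] at h2
  have h3 : m * (a / 8) ≤ D * m + V * √m := by
    have h4 : (Fintype.card (ZMod d)ˣ : ℝ) * Wt U * (m * (a / 8)) ≤ (Fintype.card (ZMod d)ˣ : ℝ) * Wt U * (D * m + V * √m) := by
      refine le_trans (le_of_eq ?_) ((h2.trans hblk).trans (le_of_eq ?_))
      · ring
      · ring
    exact le_of_mul_le_mul_left h4 (mul_pos hφ hW)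
  have h4 : D * m ≤ m * (a / 16) := by
    have := mul_le_mul_of_nonneg_left hD hm0
    linarith
  refine msol hm0 (by positivity) ?_
  linarith

/-- the large sieve for the characters which are not too small on the tiny primes, for all the windows above the exponent of Burgess -/
theorem ls_few (θ c0 α a1 b1 : ℝ) (hθ : 1 / 4 < θ) (hc0 : 0 < c0) (hα : 0 < α) (hα1 : α ≤ 1 / 4) (ha : θ < a1) (hab : a1 ≤ b1) :
    ∃ ev C2 : ℝ, 0 < ev ∧ 0 < C2 ∧ ∃ d0 : ℕ, ∀ d : ℕ, d0 ≤ d → ∀ [NeZero d], TS.BA θ c0 d →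
      ∀ A : Finset ℕ, (∀ n ∈ A, Rough ⌊(d : ℝ) ^ α⌋₊ n ∧ n.Coprime d ∧ (d : ℝ) ^ a1 < n ∧ (n : ℝ) ≤ (d : ℝ) ^ b1) →
        ∀ Ξ : Finset (DirichletCharacter ℂ d), (∀ χ ∈ Ξ, (d : ℝ) ^ (-ev) ≤ ‖Pa (PW d α (2 * α)) χ‖) →
          ∑ χ ∈ Ξ, ‖TR.DA A χ‖ ^ 2 ≤ C2 := by
  obtain ⟨c3, hc3, C2, hC2, dA, hA⟩ := TR.large_few (θ - 1 / 4) c0 α a1 b1 (by linarith) hc0 hα (by linarith) hab
  obtain ⟨ev, hev, dB, hB⟩ := TR.few_pow α c3 hα hα1 hc3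
  refine ⟨ev, C2, hev, hC2, max dA dB, fun d hd _ hBA A hAd Ξ hΞ => ?_⟩
  have gA : dA ≤ d := (le_max_left _ _).trans hd
  have gB : dB ≤ d := (le_max_right _ _).trans hd
  have hBur : BM.BurP (θ - 1 / 4) c0 d := by
    intro χ hχ N hN
    rw [show 1 / 4 + (θ - 1 / 4) = θ by ring] at hN
    exact hBA χ hχ N hN
  exact hA d gA hBur A hAd Ξ (hB d gB Ξ hΞ)

/-- the members of a window -/
theorem EW_rng {d : ℕ} (hd : 1 ≤ d) {α a1 b1 a b : ℝ} (ha : a1 ≤ a) (hb : b ≤ b1) {i n : ℕ} (hn : n ∈ EW d α i a b) :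
    Rough ⌊(d : ℝ) ^ α⌋₊ n ∧ n.Coprime d ∧ (d : ℝ) ^ a1 < n ∧ (n : ℝ) ≤ (d : ℝ) ^ b1 := by
  have hd0 : (0 : ℝ) < d := by exact_mod_cast hd
  have hd1 : (1 : ℝ) ≤ d := by exact_mod_cast hd
  obtain ⟨⟨h1, h2⟩, h3, h4, -⟩ := mem_EW.1 hn
  exact ⟨h3, h4, lt_of_le_of_lt (Real.rpow_le_rpow_of_exponent_le hd1 ha) ((Nat.floor_lt (Real.rpow_nonneg hd0.le _)).1 h1),
    ((Nat.le_floor_iff (Real.rpow_nonneg hd0.le _)).1 h2).trans (Real.rpow_le_rpow_of_exponent_le hd1 hb)⟩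

theorem final_pow (ev c R b M : ℝ) (hev : 0 < ev) (hcev : 8 * c ≤ ev) (hR : 0 < R) (hb : 0 ≤ b) (hM : 0 < M) :
    ∃ d0 : ℕ, ∀ d : ℕ, d0 ≤ d →
      ((d : ℝ) ^ (-ev)) ^ 2 * (R * Real.log d * (1 + b * Real.log d) ^ 2) * M ≤ (d : ℝ) ^ (-ev) * ((d : ℝ) ^ (-(4 * c)) / 2) := by
  obtain ⟨N, hN⟩ : ∃ N : ℝ, N = 1 + 2 * (R * (1 + b) ^ 2 * M) := ⟨_, rfl⟩
  have hX0 : 0 < 2 * (R * (1 + b) ^ 2 * M) := by positivity
  have hN1 : 1 ≤ N := by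
    rw [hN]
    linarith
  have hN0 : 0 < N := by linarith
  obtain ⟨d1, h1⟩ := Filter.eventually_atTop.1 (TR.log_le_pow (ev / 8) (by positivity) N hN0)
  refine ⟨max 1 d1, fun d hd => ?_⟩
  have g0 : 1 ≤ d := (le_max_left _ _).trans hd
  have hd1 : (1 : ℝ) ≤ d := by exact_mod_cast g0
  have hd0 : (0 : ℝ) < d := by linarith
  have hl : 0 ≤ Real.log d := Real.log_nonneg hd1
  have h2 := h1 d ((le_max_right _ _).trans hd)
  obtain ⟨l, hld⟩ : ∃ l : ℝ, l = Real.log d := ⟨_, rfl⟩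
  rw [← hld] at hl h2 ⊢
  have h3 : (N * (1 + l)) ^ 3 ≤ (d : ℝ) ^ (3 * ev / 8) := by
    have h4 := pow_le_pow_left₀ (by positivity) h2 3
    refine h4.trans (le_of_eq ?_)
    rw [← Real.rpow_natCast, ← Real.rpow_mul hd0.le]
    congr 1
    push_cast
    ring
  have h4 : R * l * (1 + b * l) ^ 2 * M * 2 ≤ (N * (1 + l)) ^ 3 := by
    have h5 : l ≤ 1 + l := by linarith
    have h6 : 1 + b * l ≤ (1 + b) * (1 + l) := by nlinarith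
    have h7 : (1 + b * l) ^ 2 ≤ ((1 + b) * (1 + l)) ^ 2 := pow_le_pow_left₀ (by positivity) h6 2
    have h8 : l * (1 + b * l) ^ 2 ≤ (1 + l) * ((1 + b) * (1 + l)) ^ 2 := mul_le_mul h5 h7 (by positivity) (by positivity)
    have h9 : R * l * (1 + b * l) ^ 2 * M * 2 ≤ (2 * (R * (1 + b) ^ 2 * M)) * (1 + l) ^ 3 := by
      have h10 := mul_le_mul_of_nonneg_left h8 (show 0 ≤ R * M * 2 by positivity)
      refine le_trans (le_of_eq ?_) (h10.trans (le_of_eq ?_))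
      · ring
      · ring
    refine h9.trans ?_
    have h11 : 2 * (R * (1 + b) ^ 2 * M) ≤ N ^ 3 := by
      have h12 : N ≤ N ^ 3 := by
        have h13 : 1 ≤ N ^ 2 := one_le_pow₀ hN1
        nlinarith
      linarith
    rw [mul_pow]
    exact mul_le_mul_of_nonneg_right h11 (by positivity)
  have h5 : R * l * (1 + b * l) ^ 2 * M ≤ (d : ℝ) ^ (3 * ev / 8) / 2 := by linarith
  calc ((d : ℝ) ^ (-ev)) ^ 2 * (R * l * (1 + b * l) ^ 2) * M = ((d : ℝ) ^ (-ev)) ^ 2 * (R * l * (1 + b * l) ^ 2 * M) := by ring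
    _ ≤ ((d : ℝ) ^ (-ev)) ^ 2 * ((d : ℝ) ^ (3 * ev / 8) / 2) := mul_le_mul_of_nonneg_left h5 (sq_nonneg _)
    _ = ((d : ℝ) ^ (-ev)) * (((d : ℝ) ^ (-ev)) * (d : ℝ) ^ (3 * ev / 8) / 2) := by ring
    _ ≤ (d : ℝ) ^ (-ev) * ((d : ℝ) ^ (-(4 * c)) / 2) := by
      refine mul_le_mul_of_nonneg_left ?_ (Real.rpow_nonneg hd0.le _)
      refine div_le_div_of_nonneg_right ?_ (by norm_num)
      rw [← Real.rpow_add hd0]
      exact Real.rpow_le_rpow_of_exponent_le hd1 (by linarith)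

/-- the sets of primes of the wrong parity, the second prime above the exponent `a1` -/
theorem setsp {d : ℕ} [NeZero d] (hd : 2 ≤ d) {c α aT hT h δ κs Lt a1 : ℝ} {i : ℕ} (hcα : c ≤ α) (hca : c ≤ a1)
    (hκs : 3 * κs ≤ Lt - aT - 1 / 4 - a1) (hLt : 1 ≤ Lt)
    (hδ : 2 ≤ (d : ℝ) ^ δ) (ψ : (ZMod d)ˣ →* ℤˣ) {D : ℕ} (hD : 1 ≤ D)
    (hTc : 0 < (PD d ⌊(d : ℝ) ^ c⌋₊ ⌊(d : ℝ) ^ (1 / 4 + 3 * κs)⌋₊ (chi ψ) D).card) :
    ∃ c' : ℝ, a1 ≤ c' ∧ c' ≤ Lt - aT ∧ 2 * (D : ℝ) * (d : ℝ) ^ (c' + h) ≤ (d : ℝ) ^ (Lt - aT + δ + h) ∧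
      ∀ t ∈ PD d ⌊(d : ℝ) ^ c⌋₊ ⌊(d : ℝ) ^ (1 / 4 + 3 * κs)⌋₊ (chi ψ) D, ∀ p ∈ PW d c' (c' + h),
        ∀ w ∈ EW d α i aT (aT + hT), Rough ⌊(d : ℝ) ^ c⌋₊ (t * p * w) ∧ (t * p * w).Coprime d ∧
          d < t * p * w ∧ ((t * p * w : ℕ) : ℝ) ≤ (d : ℝ) ^ (Lt + δ + h + hT) := by
  classical
  have hd1 : (1 : ℝ) < d := by exact_mod_cast hd
  have hd0 : (0 : ℝ) < d := by linarith
  have hD0 : (0 : ℝ) < D := by exact_mod_cast hD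
  obtain ⟨u, hu⟩ : ∃ u : ℝ, u = Real.logb d D := ⟨_, rfl⟩
  have hu1 : (d : ℝ) ^ u = D := by
    rw [hu]
    exact Real.rpow_logb hd0 hd1.ne' hD0
  have hu0 : 0 ≤ u := by
    rw [hu]
    exact Real.logb_nonneg hd1 (by exact_mod_cast hD)
  have hu2 : u < 1 / 4 + 3 * κs := by
    obtain ⟨p, hp⟩ := Finset.card_pos.1 hTc
    unfold PD at hp
    obtain ⟨h1, h2, h3, h4, h5⟩ := Finset.mem_filter.1 hp
    have h6 : D < p := (Finset.mem_Ioc.1 h1).1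
    have h7 : (D : ℝ) < (d : ℝ) ^ (1 / 4 + 3 * κs) := by
      have h8 : (p : ℝ) ≤ (d : ℝ) ^ (1 / 4 + 3 * κs) := (Nat.le_floor_iff (Real.rpow_nonneg hd0.le _)).1 h4
      have h9 : (D : ℝ) < p := by exact_mod_cast h6
      linarith
    rw [← hu1] at h7
    exact (Real.rpow_lt_rpow_left_iff hd1).1 h7
  refine ⟨Lt - u - aT, by linarith, by linarith, ?_, ?_⟩
  · rw [← hu1]
    calc 2 * (d : ℝ) ^ u * (d : ℝ) ^ (Lt - u - aT + h) ≤ (d : ℝ) ^ δ * (d : ℝ) ^ u * (d : ℝ) ^ (Lt - u - aT + h) :=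
          mul_le_mul_of_nonneg_right (mul_le_mul_of_nonneg_right hδ (Real.rpow_nonneg hd0.le _)) (Real.rpow_nonneg hd0.le _)
      _ = (d : ℝ) ^ (Lt - aT + δ + h) := by
        rw [← Real.rpow_add hd0, ← Real.rpow_add hd0]
        congr 1
        ring
  · intro t ht p hp w hw
    unfold PD at ht
    obtain ⟨t1, t2, t3, t4, t5⟩ := Finset.mem_filter.1 ht
    obtain ⟨t6, t7⟩ := Finset.mem_Ioc.1 t1
    obtain ⟨t8, -⟩ := TR.chi_one_ucl ψ t5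
    obtain ⟨p1, p2, p3, p4⟩ := mem_PW.1 hp
    obtain ⟨⟨w1, w2⟩, w3, w4, w5⟩ := mem_EW.1 hw
    have hfl : ∀ {x y : ℝ}, x ≤ y → ⌊(d : ℝ) ^ x⌋₊ ≤ ⌊(d : ℝ) ^ y⌋₊ := fun hxy =>
      Nat.floor_le_floor (Real.rpow_le_rpow_of_exponent_le hd1.le hxy)
    have r1 : Rough ⌊(d : ℝ) ^ c⌋₊ t := TR.rough_prime t2 t3
    have r2 : Rough ⌊(d : ℝ) ^ c⌋₊ p := TR.rough_prime p1 ((hfl (by linarith)).trans_lt p2)
    have r3 : Rough ⌊(d : ℝ) ^ c⌋₊ w := TR.rough_le (hfl hcα) w3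
    have q1 : (d : ℝ) ^ (Lt - u - aT) < p := (Nat.floor_lt (Real.rpow_nonneg hd0.le _)).1 p2
    have q2 : (d : ℝ) ^ aT < w := (Nat.floor_lt (Real.rpow_nonneg hd0.le _)).1 w1
    have q3 : (p : ℝ) ≤ (d : ℝ) ^ (Lt - u - aT + h) := (Nat.le_floor_iff (Real.rpow_nonneg hd0.le _)).1 p3
    have q4 : (w : ℝ) ≤ (d : ℝ) ^ (aT + hT) := (Nat.le_floor_iff (Real.rpow_nonneg hd0.le _)).1 w2
    have q5 : (D : ℝ) < t := by exact_mod_cast t6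
    have q6 : (t : ℝ) ≤ 2 * D := by exact_mod_cast t7
    have s1 : 0 < (d : ℝ) ^ (Lt - u - aT) := Real.rpow_pos_of_pos hd0 _
    have s2 : 0 < (d : ℝ) ^ aT := Real.rpow_pos_of_pos hd0 _
    refine ⟨(r1.mul r2).mul r3, Nat.Coprime.mul_left (Nat.Coprime.mul_left t8 (PW_coprime hp)) w4, ?_, ?_⟩
    · have h1 : (d : ℝ) < ((t * p * w : ℕ) : ℝ) := by
        push_cast
        have h2 : (d : ℝ) ≤ D * (d : ℝ) ^ (Lt - u - aT) * (d : ℝ) ^ aT := by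
          rw [← hu1, ← Real.rpow_add hd0, ← Real.rpow_add hd0]
          have h3 : u + (Lt - u - aT) + aT = Lt := by ring
          rw [h3]
          calc (d : ℝ) = (d : ℝ) ^ (1 : ℝ) := (Real.rpow_one _).symm
            _ ≤ (d : ℝ) ^ Lt := Real.rpow_le_rpow_of_exponent_le hd1.le hLt
        refine lt_of_le_of_lt h2 ?_
        have h3 : (D : ℝ) * (d : ℝ) ^ (Lt - u - aT) < t * p :=
          mul_lt_mul q5 q1.le s1 (by linarith)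
        exact mul_lt_mul h3 q2.le s2 (by positivity)
      exact_mod_cast h1
    · push_cast
      have h1 : (t : ℝ) * p * w ≤ (d : ℝ) ^ δ * (d : ℝ) ^ u * (d : ℝ) ^ (Lt - u - aT + h) * (d : ℝ) ^ (aT + hT) := by
        have h2 : (t : ℝ) ≤ (d : ℝ) ^ δ * (d : ℝ) ^ u := by
          rw [hu1]
          refine q6.trans (mul_le_mul_of_nonneg_right hδ hD0.le)
        exact mul_le_mul (mul_le_mul h2 q3 (Nat.cast_nonneg _) (by positivity)) q4 (Nat.cast_nonneg _) (by positivity)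
      refine h1.trans (le_of_eq ?_)
      rw [← Real.rpow_add hd0, ← Real.rpow_add hd0, ← Real.rpow_add hd0]
      congr 1
      ring

end Pool.Agent.Lib.MP_42948a_nt.TV
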