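import Pool.Agent.Lib.MP_42948a_nt.TV.P6
import Pool.Agent.Lib.MP_42948a_nt.TR.S7
import Pool.Agent.Lib.MP_42948a_nt.TR.S9
import Pool.Agent.Lib.MP_42948a_nt.TF.FW

/-!
# The classes of the wrong parity, up to a power saving set
-/

set_option linter.unusedSectionVars false

namespace Pool.Agent.Lib.MP_42948a_nt.TV

open Finset Pool.Agent.Lib.MP_42948a_nt.OA Pool.Agent.Lib.MP_42948a_nt.AC Pool.Agent.Lib.MP_42948a_nt.TQ
  Pool.Agent.Lib.MP_42948a_nt.PS Pool.Agent.Lib.MP_42948a_nt.TF Pool.Agent.Lib.MP_42948a_nt.TS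

/-- the wrong parity: if the threshold set of the products of `i` primes is almost the set `ψ = (-1) ^ i`, then all the classes with
`ψ = (-1) ^ (K - 1)`, `K = k + 2 + i`, up to a power saving set, contain a product of exactly `K` primes `> d ^ c`, at most `d ^ E` -/
theorem wrong_pow (θ c0 α aT hT a1 uE Lt E : ℝ) (i k : ℕ) (hθ : 1 / 4 < θ) (hθ1 : θ < aT) (hc0 : 0 < c0) (hα : 0 < α)
    (hα1 : α ≤ 1 / 4) (hαa : α ≤ a1) (ha1 : θ < a1) (hLa : a1 + 1 / 4 < Lt - aT) (hLt : 1 ≤ Lt) (hLu : Lt - aT < uE)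
    (hαu : 2 * α ≤ uE) (hhT : 0 < hT) (hE : Lt + hT + 2 * α * k < E) (hk : 1 ≤ k) :
    ∃ σ0 c δ : ℝ, 0 < σ0 ∧ 0 < c ∧ 0 < δ ∧ ∀ C0 : ℝ, 0 < C0 → ∃ ε0 : ℝ, 0 < ε0 ∧ ∀ κ : ℝ, 0 < κ → ∃ τ0 : ℝ, 0 < τ0 ∧
      ∃ d0 : ℕ, ∀ d : ℕ, d0 ≤ d → ∀ [NeZero d], TS.BA θ c0 d →
      ∀ (X : Finset (DirichletCharacter ℂ d)) (Q : ℝ) (β : (ZMod d)ˣ → ℝ) (b : DirichletCharacter ℂ d → ℝ), Ker X τ0 Q β b →
      (∀ χ, χ ∉ X → ‖Pa (PW d α (2 * α)) χ‖ ≤ τ0) → ∀ ψ : (ZMod d)ˣ →* ℤˣ, ψ ≠ 1 →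
      ∑ p ∈ (PW d α uE).filter (fun p => ψ (ucl d p) = 1), 1 / (p : ℝ) ≤ σ0 →
      (∀ x : (ZMod d)ˣ, sm β (EW d α 1 a1 uE) x ≤ C0) →
      TS.mu (symmDiff {x | κ < sm β (EW d α i aT (aT + hT)) x} {x | ψ x = (-1) ^ i}) ≤ ε0 →
        TS.mu {z : (ZMod d)ˣ | ψ z = (-1) ^ (k + i + 1) ∧ ∀ n : ℕ, (n : ℝ) ≤ (d : ℝ) ^ E → Rough ⌊(d : ℝ) ^ c⌋₊ n →
          ArithmeticFunction.cardFactors n = k + 2 + i → (n : ZMod d) ≠ (z : ZMod d)} ≤ (d : ℝ) ^ (-δ) := by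
  classical
  -- the parameters
  obtain ⟨sl, hsl⟩ : ∃ sl : ℝ, sl = (E - (Lt + hT + 2 * α * k)) / 2 := ⟨_, rfl⟩
  have hsl0 : 0 < sl := by
    rw [hsl]
    linarith
  obtain ⟨h, hh⟩ : ∃ h : ℝ, h = min (uE - (Lt - aT)) sl := ⟨_, rfl⟩
  have hh0 : 0 < h := by
    rw [hh]
    exact lt_min (by linarith) hsl0
  have hh1 : h ≤ uE - (Lt - aT) := hh ▸ min_le_left _ _
  have hh2 : h ≤ sl := hh ▸ min_le_right _ _
  obtain ⟨κs, hκs⟩ : ∃ κs : ℝ, κs = min (1 / 100) ((Lt - aT - 1 / 4 - a1) / 3) := ⟨_, rfl⟩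
  have hκs0 : 0 < κs := by
    rw [hκs]
    exact lt_min (by norm_num) (by linarith)
  have hκs1 : κs ≤ 1 / 100 := hκs ▸ min_le_left _ _
  have hκs2 : 3 * κs ≤ Lt - aT - 1 / 4 - a1 := by
    have : κs ≤ (Lt - aT - 1 / 4 - a1) / 3 := hκs ▸ min_le_right _ _
    linarith
  have haT0 : 0 < aT := by linarith
  have ha10 : 0 < a1 := by linarith
  have huE0 : 0 < uE := by linarith
  obtain ⟨ev, C2, hev, hC2, dA, hA⟩ := ls_few θ c0 α (min aT a1) (max (aT + hT) uE) hθ hc0 hα hα1 (lt_min hθ1 ha1)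
    ((min_le_left _ _).trans ((by linarith : aT ≤ aT + hT).trans (le_max_left _ _)))
  obtain ⟨cs, hcs, hsp⟩ := TR.split_short κs hκs0 hκs1
  obtain ⟨c, hcd⟩ : ∃ c : ℝ, c = min cs (min α (ev / 8)) := ⟨_, rfl⟩
  have hcp : 0 < c := by
    rw [hcd]
    exact lt_min hcs (lt_min hα (by positivity))
  have hc1 : c ≤ cs := hcd ▸ min_le_left _ _
  have hc2 : c ≤ α := hcd ▸ (min_le_right _ _).trans (min_le_left _ _)
  have hc4 : 8 * c ≤ ev := by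
    have : c ≤ ev / 8 := hcd ▸ (min_le_right _ _).trans (min_le_right _ _)
    linarith
  obtain ⟨dC, hC⟩ := hsp c hcp hc1
  obtain ⟨w0, hw0, dD, hDm⟩ := TR.mass_window h a1 (Lt - aT) hh0 ha10 (by linarith)
  obtain ⟨R, hR, dE, hEs⟩ := TR.sup_three c (Lt + sl + h + hT) hcp (by linarith)
  obtain ⟨dF, hF⟩ := WtT α hα
  obtain ⟨dG, hG⟩ := TR.ev_pow sl hsl0 2
  obtain ⟨ω, hω⟩ : ∃ ω : ℝ, ω = min (1 / 20) w0 := ⟨_, rfl⟩
  have hω0 : 0 < ω := by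
    rw [hω]
    exact lt_min (by norm_num) hw0
  have hω1 : ω ≤ 1 / 20 := hω ▸ min_le_left _ _
  have hω2 : ω ≤ w0 := hω ▸ min_le_right _ _
  refine ⟨ω / (4 * (k + 1)), c, ev, by positivity, hcp, hev, fun C0 hC0 => ⟨ω / (4 * C0), by positivity, fun κ hκ => ?_⟩⟩
  obtain ⟨τ0, hτ⟩ : ∃ τ0 : ℝ, τ0 = κ * ω / (48 * C2) := ⟨_, rfl⟩
  have hτ0 : 0 < τ0 := by
    rw [hτ]
    positivity
  have hτ2 : (2 * τ0 + τ0) * C2 ≤ κ * ω / 16 := by
    rw [hτ]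
    refine le_of_eq ?_
    field_simp
    ring
  obtain ⟨bb, hbb⟩ : ∃ bb : ℝ, bb = max (aT + hT) uE := ⟨_, rfl⟩
  have hbb0 : 0 ≤ bb := by
    rw [hbb]
    exact huE0.le.trans (le_max_right _ _)
  obtain ⟨M, hM⟩ : ∃ M : ℝ, M = (16 / (κ * ω)) ^ 2 := ⟨_, rfl⟩
  have hM0 : 0 < M := by
    rw [hM]
    positivity
  obtain ⟨dH, hH⟩ := final_pow ev c R bb M hev hc4 hR hbb0 hM0
  refine ⟨τ0, hτ0, max 2 (max dA (max dC (max dD (max dE (max dF (max dG dH)))))),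
    fun d hd _ hBA X Q β b hK hX ψ hψ hσ hsupβ hε => ?_⟩
  have g0 : 2 ≤ d := (le_max_left _ _).trans hd
  have gA : dA ≤ d := (le_max_left _ _).trans ((le_max_right _ _).trans hd)
  have gC' := (le_max_right _ _).trans ((le_max_right _ _).trans hd)
  have gC : dC ≤ d := (le_max_left _ _).trans gC'
  have gD' := (le_max_right _ _).trans gC'
  have gD : dD ≤ d := (le_max_left _ _).trans gD'
  have gE' := (le_max_right _ _).trans gD'
  have gE : dE ≤ d := (le_max_left _ _).trans gE'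
  have gF' := (le_max_right _ _).trans gE'
  have gF : dF ≤ d := (le_max_left _ _).trans gF'
  have gG' := (le_max_right _ _).trans gF'
  have gG : dG ≤ d := (le_max_left _ _).trans gG'
  have gH : dH ≤ d := (le_max_right _ _).trans gG'
  have hd1 : (1 : ℝ) < d := by exact_mod_cast g0
  have hd0 : (0 : ℝ) < d := by linarith
  obtain ⟨D, hD1, hDc⟩ := hC d gC ψ hψ
  have hD0 : (0 : ℝ) < D := by exact_mod_cast hD1
  have hq0 : 0 < (d : ℝ) ^ (-(4 * c)) := Real.rpow_pos_of_pos hd0 _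
  have hTc : 0 < (PD d ⌊(d : ℝ) ^ c⌋₊ ⌊(d : ℝ) ^ (1 / 4 + 3 * κs)⌋₊ (chi ψ) D).card := by
    have h1 : (0 : ℝ) < ((PD d ⌊(d : ℝ) ^ c⌋₊ ⌊(d : ℝ) ^ (1 / 4 + 3 * κs)⌋₊ (chi ψ) D).card : ℝ) :=
      lt_trans (by positivity) hDc
    exact_mod_cast h1
  obtain ⟨c', hc'1, hc'2, hc'3, hset⟩ := setsp (i := i) (h := h) (hT := hT) g0 hc2 (hc2.trans hαa) hκs2 hLt (hG d gG) ψ hD1 hTc
  obtain ⟨T, hTd⟩ : ∃ T : Finset ℕ, T = PD d ⌊(d : ℝ) ^ c⌋₊ ⌊(d : ℝ) ^ (1 / 4 + 3 * κs)⌋₊ (chi ψ) D := ⟨_, rfl⟩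
  rw [← hTd] at hset hDc hTc
  have hTm : ∀ t ∈ T, t.Prime ∧ ⌊(d : ℝ) ^ c⌋₊ < t ∧ t ≤ 2 * D ∧ t.Coprime d ∧ ψ (ucl d t) = 1 := by
    intro t ht
    rw [hTd] at ht
    unfold PD at ht
    obtain ⟨t1, t2, t3, t4, t5⟩ := Finset.mem_filter.1 ht
    obtain ⟨t8, t9⟩ := TR.chi_one_ucl ψ t5
    exact ⟨t2, t3, (Finset.mem_Ioc.1 t1).2, t8, t9⟩
  have hWT : (d : ℝ) ^ (-(4 * c)) / 2 ≤ Wt T :=
    TR.Wt_dyadic (fun n hn => ⟨(hTm n hn).1.one_le, (hTm n hn).2.2.1⟩) hD1 hDc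
  have hWT0 : 0 < Wt T := lt_of_lt_of_le (by positivity) hWT
  have hWP : 1 / 20 ≤ Wt (PW d α (2 * α)) := hF d gF
  have hWP0 : 0 < Wt (PW d α (2 * α)) := by linarith
  have hWP' : w0 ≤ Wt (PW d c' (c' + h)) := hDm d gD c' hc'1 hc'2
  have hWP'0 : 0 < Wt (PW d c' (c' + h)) := by linarith
  have hlog0 : 0 ≤ Real.log d := Real.log_nonneg hd1.le
  have hlogb : ∀ u : ℝ, 0 ≤ u → u ≤ bb → ∀ A : Finset ℕ, (∀ n ∈ A, 1 ≤ n ∧ n ≤ ⌊(d : ℝ) ^ u⌋₊) → Wt A ≤ 1 + bb * Real.log d := by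
    intro u hu0 hub A hA1
    refine (TR.Wt_le_log _ _ hA1).trans ?_
    have h2 : 1 ≤ ⌊(d : ℝ) ^ u⌋₊ := by
      refine Nat.le_floor ?_
      rw [Nat.cast_one]
      exact Real.one_le_rpow hd1.le hu0
    have h3 : Real.log (⌊(d : ℝ) ^ u⌋₊ : ℝ) ≤ Real.log ((d : ℝ) ^ u) :=
      Real.log_le_log (by exact_mod_cast h2) (Nat.floor_le (Real.rpow_nonneg hd0.le _))
    rw [Real.log_rpow hd0] at h3
    have h4 := mul_le_mul_of_nonneg_right hub hlog0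
    linarith
  have hWW : Wt (EW d α i aT (aT + hT)) ≤ 1 + bb * Real.log d := by
    refine hlogb (aT + hT) (by linarith) (by rw [hbb]; exact le_max_left _ _) _ fun n hn => ?_
    obtain ⟨⟨h1, h2⟩, -⟩ := mem_EW.1 hn
    exact ⟨by omega, h2⟩
  have hWPb : Wt (PW d c' (c' + h)) ≤ 1 + bb * Real.log d := by
    refine hlogb (c' + h) (by linarith) (by rw [hbb]; exact (by linarith : c' + h ≤ uE).trans (le_max_right _ _)) _ fun n hn => ?_
    obtain ⟨h1, h2, h3, -⟩ := mem_PW.1 hn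
    exact ⟨h1.one_le, h3⟩
  have hWW0 : 0 ≤ Wt (EW d α i aT (aT + hT)) := TR.Wt_nonneg' _
  have hsup : ∀ x : (ZMod d)ˣ, TR.mus [T, PW d c' (c' + h), EW d α i aT (aT + hT)] (TR.dl d) x ≤ R * Real.log d :=
    hEs d gE T _ _ hset
  have hfl : ∀ {x y : ℝ}, x ≤ y → ⌊(d : ℝ) ^ x⌋₊ ≤ ⌊(d : ℝ) ^ y⌋₊ := fun hxy =>
    Nat.floor_le_floor (Real.rpow_le_rpow_of_exponent_le hd1.le hxy)
  have hPE : PW d c' (c' + h) ⊆ EW d α 1 a1 uE := by
    intro p hp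
    have hp' := PW_coprime hp
    obtain ⟨p1, p2, p3, p4⟩ := mem_PW.1 hp
    refine mem_EW.2 ⟨⟨(hfl hc'1).trans_lt p2, p3.trans (hfl (by linarith))⟩, ?_, hp', ArithmeticFunction.cardFactors_apply_prime p1⟩
    exact TR.rough_prime p1 ((hfl (by linarith)).trans_lt p2)
  have hLW : ∀ Ξ : Finset (DirichletCharacter ℂ d), (∀ χ ∈ Ξ, (d : ℝ) ^ (-ev) ≤ ‖Pa (PW d α (2 * α)) χ‖) →
      ∑ χ ∈ Ξ, ‖TR.DA (EW d α i aT (aT + hT)) χ‖ ^ 2 ≤ C2 := by
    intro Ξ hΞ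
    exact hA d gA hBA _ (fun n hn => EW_rng (by omega) (min_le_left _ _) (le_max_left _ _) hn) Ξ hΞ
  have hLP : ∀ Ξ : Finset (DirichletCharacter ℂ d), (∀ χ ∈ Ξ, (d : ℝ) ^ (-ev) ≤ ‖Pa (PW d α (2 * α)) χ‖) →
      ∑ χ ∈ Ξ, ‖TR.DA (PW d c' (c' + h)) χ‖ ^ 2 ≤ C2 := by
    intro Ξ hΞ
    exact hA d gA hBA _ (fun n hn => EW_rng (by omega) (min_le_right _ _) (le_max_right _ _) (hPE hn)) Ξ hΞ
  have hPs : PW d α (2 * α) ⊆ PW d α uE := PW_mono (by omega) le_rfl hαu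
  have hPs' : PW d c' (c' + h) ⊆ PW d α uE := PW_mono (by omega) (by linarith) (by linarith)
  have hst := structp (d := d) ψ ((-1) ^ i) hk (P := PW d α (2 * α)) (T := T) (P' := PW d c' (c' + h))
    (W := EW d α i aT (aT + hT)) hK hτ0.le (τ := τ0) (v := (d : ℝ) ^ (-ev)) (R := R * Real.log d) (C2 := C2) (C0 := C0)
    (κ := κ) (σ := ω / (4 * (k + 1))) (ω := ω) (ε := ω / (4 * C0)) hτ0.le (Real.rpow_nonneg hd0.le _)
    (fun p hp => PW_coprime hp) hX hω0 (by linarith) (by linarith) hWT0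
    (le_of_eq (div_mul_cancel₀ _ (by positivity))) (TR.qs_le ψ hPs hσ) (TR.qs_le ψ hPs' hσ) (fun t ht => (hTm t ht).2.2.2.2) hκ
    (fun x => (sm_mono hK.nonneg hPE x).trans (hsupβ x)) hε (le_of_eq (by field_simp)) hsup hτ2 hLP hLW
  have hfin : {z : (ZMod d)ˣ | ψ z = (-1) ^ (k + i + 1) ∧ ∀ n : ℕ, (n : ℝ) ≤ (d : ℝ) ^ E → Rough ⌊(d : ℝ) ^ c⌋₊ n →
      ArithmeticFunction.cardFactors n = k + 2 + i → (n : ZMod d) ≠ (z : ZMod d)} ⊆
      {x | ψ x = (-1) ^ i * (-1) ^ (k + 1) ∧ TR.mus (List.replicate k (PW d α (2 * α)) ++ [T, PW d c' (c' + h), EW d α i aT (aT + hT)])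
        (TR.dl d) x = 0} := by
    rintro z ⟨hz1, hz2⟩
    refine ⟨?_, ?_⟩
    · rw [hz1, ← pow_add]
      congr 1
      ring
    · by_contra hz3
      obtain ⟨ns, n1, n2, n3⟩ := TR.mus_rep (d := d) _ (by
        intro A hA n hn
        rw [List.mem_append] at hA
        rcases hA with hA | hA
        · rw [List.eq_of_mem_replicate hA] at hn
          exact PW_coprime hn
        · rw [List.mem_cons, List.mem_cons, List.mem_cons] at hA
          rcases hA with hA | hA | hA | hA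
          · rw [hA] at hn
            exact (hTm n hn).2.2.2.1
          · rw [hA] at hn
            exact PW_coprime hn
          · rw [hA] at hn
            exact EW_coprime hn
          · exact absurd hA List.not_mem_nil) z hz3
      obtain ⟨LL, hLL⟩ : ∃ LL : List (Finset ℕ × ℕ × ℝ), LL = List.replicate k (PW d α (2 * α), 1, (d : ℝ) ^ (2 * α)) ++
          [(T, 1, 2 * (D : ℝ)), (PW d c' (c' + h), 1, (d : ℝ) ^ (c' + h)), (EW d α i aT (aT + hT), i, (d : ℝ) ^ (aT + hT))] := ⟨_, rfl⟩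
      have hLf : LL.map Prod.fst = List.replicate k (PW d α (2 * α)) ++ [T, PW d c' (c' + h), EW d α i aT (aT + hT)] := by
        rw [hLL, List.map_append, List.map_replicate]
        rfl
      have hLmem : ∀ A ∈ LL, A = (PW d α (2 * α), 1, (d : ℝ) ^ (2 * α)) ∨ A = (T, 1, 2 * (D : ℝ)) ∨
          A = (PW d c' (c' + h), 1, (d : ℝ) ^ (c' + h)) ∨ A = (EW d α i aT (aT + hT), i, (d : ℝ) ^ (aT + hT)) := by
        intro A hA
        rw [hLL, List.mem_append] at hA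
        rcases hA with hA | hA
        · exact Or.inl (List.eq_of_mem_replicate hA)
        · rw [List.mem_cons, List.mem_cons, List.mem_cons] at hA
          rcases hA with hA | hA | hA | hA
          · exact Or.inr (Or.inl hA)
          · exact Or.inr (Or.inr (Or.inl hA))
          · exact Or.inr (Or.inr (Or.inr hA))
          · exact absurd hA List.not_mem_nil
      rw [← hLf] at n1
      obtain ⟨r1, r2, r3⟩ := TR.rep_prod (z := ⌊(d : ℝ) ^ c⌋₊) LL (by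
        intro A hA
        rcases hLmem A hA with hA | hA | hA | hA <;> rw [hA] <;> positivity) (by
        intro A hA n hn
        rcases hLmem A hA with hA | hA | hA | hA
        · rw [hA] at hn ⊢
          obtain ⟨p1, p2, p3, p4⟩ := mem_PW.1 hn
          exact ⟨TR.rough_prime p1 ((hfl hc2).trans_lt p2), ArithmeticFunction.cardFactors_apply_prime p1,
            (Nat.le_floor_iff (Real.rpow_nonneg hd0.le _)).1 p3⟩
        · rw [hA] at hn ⊢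
          obtain ⟨p1, p2, p3, p4, p5⟩ := hTm n hn
          have p6 : (n : ℝ) ≤ 2 * (D : ℝ) := by exact_mod_cast p3
          exact ⟨TR.rough_prime p1 p2, ArithmeticFunction.cardFactors_apply_prime p1, p6⟩
        · rw [hA] at hn ⊢
          obtain ⟨p1, p2, p3, p4⟩ := mem_PW.1 hn
          exact ⟨TR.rough_prime p1 ((hfl (by linarith)).trans_lt p2), ArithmeticFunction.cardFactors_apply_prime p1,
            (Nat.le_floor_iff (Real.rpow_nonneg hd0.le _)).1 p3⟩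
        · rw [hA] at hn ⊢
          obtain ⟨⟨w1, w2⟩, w3, w4, w5⟩ := mem_EW.1 hn
          exact ⟨TR.rough_le (hfl hc2) w3, w5, (Nat.le_floor_iff (Real.rpow_nonneg hd0.le _)).1 w2⟩) ns n1
      refine hz2 ns.prod ?_ r1 ?_ ?_
      · refine r3.trans ?_
        rw [hLL, List.map_append, List.map_replicate, List.prod_append, List.prod_replicate, List.map_cons, List.map_cons,
          List.map_cons, List.map_nil, List.prod_cons, List.prod_cons, List.prod_cons, List.prod_nil, mul_one]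
        calc ((d : ℝ) ^ (2 * α)) ^ k * (2 * (D : ℝ) * ((d : ℝ) ^ (c' + h) * (d : ℝ) ^ (aT + hT))) =
              (d : ℝ) ^ (2 * α * k) * ((2 * (D : ℝ) * (d : ℝ) ^ (c' + h)) * (d : ℝ) ^ (aT + hT)) := by
              rw [Real.rpow_mul_natCast hd0.le]
              ring
          _ ≤ (d : ℝ) ^ (2 * α * k) * ((d : ℝ) ^ (Lt - aT + sl + h) * (d : ℝ) ^ (aT + hT)) :=
              mul_le_mul_of_nonneg_left (mul_le_mul_of_nonneg_right hc'3 (Real.rpow_nonneg hd0.le _)) (Real.rpow_nonneg hd0.le _)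
          _ = (d : ℝ) ^ (2 * α * k + (Lt - aT + sl + h + (aT + hT))) := by
              rw [← Real.rpow_add hd0, ← Real.rpow_add hd0]
          _ ≤ (d : ℝ) ^ E := by
              refine Real.rpow_le_rpow_of_exponent_le hd1.le ?_
              have : sl + sl = E - (Lt + hT + 2 * α * k) := by
                rw [hsl]
                ring
              linarith
      · rw [r2, hLL, List.map_append, List.map_replicate, List.sum_append, List.sum_replicate, List.map_cons, List.map_cons,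
          List.map_cons, List.map_nil, List.sum_cons, List.sum_cons, List.sum_cons, List.sum_nil, smul_eq_mul]
        ring
      · rw [← n3, ucl_val n2]
  refine (TS.mu_mono hfin).trans (hst.trans ?_)
  -- the final inequality
  have hH' := hH d gH
  obtain ⟨wq, hwq⟩ : ∃ wq : ℝ, wq = Wt (PW d c' (c' + h)) := ⟨_, rfl⟩
  obtain ⟨wt, hwt⟩ : ∃ wt : ℝ, wt = Wt T := ⟨_, rfl⟩
  obtain ⟨ww, hww⟩ : ∃ ww : ℝ, ww = Wt (EW d α i aT (aT + hT)) := ⟨_, rfl⟩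
  obtain ⟨v, hv⟩ : ∃ v : ℝ, v = (d : ℝ) ^ (-ev) := ⟨_, rfl⟩
  obtain ⟨q, hq⟩ : ∃ q : ℝ, q = (d : ℝ) ^ (-(4 * c)) := ⟨_, rfl⟩
  obtain ⟨l, hl⟩ : ∃ l : ℝ, l = Real.log d := ⟨_, rfl⟩
  rw [← hwq, ← hl] at hWPb
  rw [← hwq] at hWP'0
  rw [← hwt, ← hq] at hWT
  rw [← hwt] at hWT0
  rw [← hww, ← hl] at hWW
  rw [← hww] at hWW0
  rw [← hq] at hq0
  rw [← hv, ← hq, ← hl] at hH'
  rw [← hl] at hlog0
  rw [← hwq, ← hwt, ← hww, ← hv, ← hl]
  have hv0 : 0 ≤ v := by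
    rw [hv]
    exact Real.rpow_nonneg hd0.le _
  have hrt : 0 ≤ R * l * (wt * (wq * ww)) := by positivity
  have hcalc : (v * √(R * l * (wt * (wq * ww))) / (wt * (κ * ω / 16))) ^ 2 = v ^ 2 * (R * l * (wq * ww)) * M / wt := by
    rw [div_pow, mul_pow, Real.sq_sqrt hrt, hM]
    field_simp
  rw [hcalc, div_le_iff₀ hWT0]
  have h1 : wq * ww ≤ (1 + bb * l) ^ 2 := by
    rw [sq]
    exact mul_le_mul hWPb hWW hWW0 (hWP'0.le.trans hWPb)
  have h2 : v ^ 2 * (R * l * (wq * ww)) * M ≤ v ^ 2 * (R * l * (1 + bb * l) ^ 2) * M :=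
    mul_le_mul_of_nonneg_right (mul_le_mul_of_nonneg_left (mul_le_mul_of_nonneg_left h1 (by positivity)) (sq_nonneg _)) hM0.le
  refine h2.trans (hH'.trans ?_)
  exact mul_le_mul_of_nonneg_left hWT hv0

end Pool.Agent.Lib.MP_42948a_nt.TV
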