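import Pool.Agent.Lib.MP_42948a_nt.TV.P3
import Pool.Agent.Lib.MP_42948a_nt.TV.P7
import Pool.Agent.Lib.MP_42948a_nt.TS.Z1

/-!
# Exactly `K` primes in all classes outside a power saving set: assembly
-/

set_option linter.unusedSectionVars false

namespace Pool.Agent.Lib.MP_42948a_nt.TV

open Finset Pool.Agent.Lib.MP_42948a_nt.OA Pool.Agent.Lib.MP_42948a_nt.TQ Pool.Agent.Lib.MP_42948a_nt.PS
  Pool.Agent.Lib.MP_42948a_nt.TF Pool.Agent.Lib.MP_42948a_nt.TS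

theorem num_exists2 (θ ε : ℝ) (hθ : 1 / 4 < θ) (hθ1 : θ ≤ 7 / 20) (hε : 0 < ε) :
    ∃ (aT aB s0 s1 v H w : ℝ) (m1 mB : ℕ), Num θ ε aT aB s0 s1 v H w m1 mB ∧ aB ≤ w * mB + 2 * w := by
  obtain ⟨H, hH⟩ : ∃ H, H = min (ε / 4) (θ / 200) := ⟨_, rfl⟩
  have hH0 : 0 < H := by
    rw [hH]
    exact lt_min (by linarith) (by linarith)
  have hH1 : H ≤ ε / 4 := by
    rw [hH]
    exact min_le_left _ _
  have hH2 : H ≤ θ / 200 := by
    rw [hH]
    exact min_le_right _ _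
  obtain ⟨w, hw⟩ : ∃ w, w = min (H / 100) ((4 * θ - 1) / 8) := ⟨_, rfl⟩
  have hw0 : 0 < w := by
    rw [hw]
    exact lt_min (by linarith) (by linarith)
  have hw1 : w ≤ H / 100 := by
    rw [hw]
    exact min_le_left _ _
  have hw2 : w ≤ (4 * θ - 1) / 8 := by
    rw [hw]
    exact min_le_right _ _
  obtain ⟨m1, hm1⟩ : ∃ m1 : ℕ, m1 = ⌈(3 / 5 * θ) / w⌉₊ := ⟨_, rfl⟩
  obtain ⟨mB, hmB⟩ : ∃ mB : ℕ, mB = ⌊(1177 / 500 * θ - w) / w⌋₊ := ⟨_, rfl⟩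
  have e1 : 3 / 5 * θ ≤ w * m1 := by
    have h1 := Nat.le_ceil ((3 / 5 * θ) / w)
    rw [← hm1, div_le_iff₀ hw0] at h1
    linarith
  have e2 : w * m1 ≤ 3 / 5 * θ + w := by
    have h1 := (Nat.ceil_lt_add_one (a := (3 / 5 * θ) / w) (by positivity)).le
    rw [← hm1] at h1
    have h2 := mul_le_mul_of_nonneg_left h1 hw0.le
    rw [mul_add, mul_one, mul_div_cancel₀ _ hw0.ne'] at h2
    exact h2
  have e3 : w * mB ≤ 1177 / 500 * θ - w := by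
    have h1 := Nat.floor_le (a := (1177 / 500 * θ - w) / w) (div_nonneg (by linarith) hw0.le)
    rw [← hmB, le_div_iff₀ hw0] at h1
    linarith
  have e4 : 1177 / 500 * θ - 2 * w ≤ w * mB := by
    have h1 := (Nat.lt_floor_add_one ((1177 / 500 * θ - w) / w)).le
    rw [← hmB, div_le_iff₀ hw0] at h1
    linarith
  refine ⟨823 / 500 * θ, 1177 / 500 * θ, 131 / 500 * θ, 3 / 5 * θ, 26 / 25 * θ, H, w, m1, mB, ?_, by linarith⟩
  constructor <;> linarith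

/-- The case of a modulus for which the bound of Burgess' type with the exponent `θ` holds: a power saving set of exceptional classes. -/
theorem main_BAp (θ c ε : ℝ) (k : ℕ) (hθ : 1 / 4 < θ) (hθ1 : θ ≤ 7 / 20) (hc : 0 < c) (hε : 0 < ε) (hk : 10 ≤ k) :
    ∃ c' : ℝ, 0 < c' ∧ ∃ δ : ℝ, 0 < δ ∧ ∃ d0 : ℕ, ∀ d : ℕ, d0 ≤ d → ∀ [NeZero d], BA θ c d →
      mu {z : (ZMod d)ˣ | Unr d (4 * θ + ε) c' (k + 1) z} ≤ (d : ℝ) ^ (-δ) := by
  classical
  have hθ0 : 0 < θ := by linarith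
  obtain ⟨aT, aB, s0, s1, v, H, w, m1, mB, hn, hmBl⟩ := num_exists2 θ ε hθ hθ1 hε
  have hs00 := hn.s00
  have hH0 := hn.H0
  have hw0 := hn.w0
  have haT0 : 0 < aT := hθ0.trans hn.aT1
  have haB0 : 0 < aB := hθ0.trans hn.aB1
  have hs10 : 0 < s1 := lt_of_lt_of_le hs00 hn.s0s1
  -- the number of characters
  obtain ⟨M0, dF, hfew⟩ := few (s0 / 2) (1 / 2) (by linarith) hn.s0q (by norm_num)
  obtain ⟨M, hM⟩ : ∃ M : ℕ, M = M0 + 1 := ⟨_, rfl⟩
  have hM1 : 1 ≤ M := by omega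
  -- the analytic part
  obtain ⟨α3, hα3, hA3⟩ := anp 3 (by norm_num) θ c s0 v w M hθ0 hc hs00 hw0 (by
    have := hn.an3
    push_cast
    linarith) (by
    have := hn.an3'
    push_cast
    linarith)
  obtain ⟨α1, hα1, hA1⟩ := anp 1 le_rfl θ c s1 v w M hθ0 hc hs10 hw0 (by
    have := hn.an1
    push_cast
    linarith) (by
    have := hn.an1'
    push_cast
    linarith)
  obtain ⟨α, hα0, hαα3, hαα1, hα100, hα7, hαH, hαε, hαε2⟩ := ch_alpha hα3 hα1 hw0 hH0 hε k (by omega)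
  have hαw : α ≤ w := by linarith
  have hαs0 : α ≤ s0 / 2 := by linarith [hn.ws0]
  have hkR : (10 : ℝ) ≤ k := by exact_mod_cast hk
  obtain ⟨κ3, hκ3, dA3, hA3'⟩ := hA3 α hα0 hαα3
  obtain ⟨κ1, hκ1, dA1, hA1'⟩ := hA1 α hα0 hαα1
  -- the wrong parity
  have hw448 : 224 * w ≤ 1 := by linarith [hn.h7w, hn.H4, hn.s0q]
  have hαu : 2 * α ≤ w * mB := by linarith [hn.aB2]
  have hsum0 := hn.sum
  obtain ⟨σ0, cw, δw, hσ0, hcw, hδw, hWP⟩ := wrong_pow θ c α aT H (11 / 10 * θ) (w * mB) (4 * θ - 4 * w) (4 * θ + ε) 7 (k - 8) hθ hn.aT1 hc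
    hα0 (by linarith) (by linarith) (by linarith) (by linarith [hn.aB2]) (by linarith [hn.wθ]) (by linarith) hαu hH0 (by
      have h1 : ((k - 8 : ℕ) : ℝ) ≤ k := by
        have : k - 8 ≤ k := by omega
        exact_mod_cast this
      have h2 : 2 * α * ((k - 8 : ℕ) : ℝ) ≤ 2 * α * k := mul_le_mul_of_nonneg_left h1 (by linarith)
      linarith [hn.hHε]) (by omega)
  obtain ⟨CW, hCW0, hCW⟩ := sup_sm (θ := θ) (c := c) (α := α) (a := 11 / 10 * θ) (h := w * mB - 11 / 10 * θ) hθ0 hc hα0 (by linarith)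
    (by linarith [hn.aB2])
  rw [show 11 / 10 * θ + (w * mB - 11 / 10 * θ) = w * mB by ring] at hCW
  obtain ⟨ε0, hε0, hWP⟩ := hWP CW hCW0
  -- few characters
  obtain ⟨ev, CL, hev, hCL, dL, hL⟩ := ls_few θ c α (11 / 10 * θ) 3 hθ hc hα0 (by linarith) (by linarith) (by linarith)
  -- upper bounds
  obtain ⟨CT, hCT0, hCT⟩ := sup_sm (θ := θ) (c := c) (α := α) (a := aT) (h := H) hθ0 hc hα0 hn.aT1 hH0
  obtain ⟨CB, hCB0, hCB⟩ := sup_sm (θ := θ) (c := c) (α := α) (a := aB) (h := H) hθ0 hc hα0 hn.aB1 hH0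
  have hsum := hn.sum
  have hwθ := hn.wθ
  have hwθ2 : aT - α > 0 := by linarith [hn.aT1]
  obtain ⟨C1, hC10, dC1, hC1⟩ := sup_cv (α := α) (a := aT) (a' := aT + H) (b := aB) (b' := aB + H) hα0 haT0 haB0 (by linarith)
    (by linarith) (by linarith)
  obtain ⟨C2, hC20, dC2, hC2⟩ := sup_cv (α := α) (a := aT - α) (a' := aT - α + H / 2) (b := aB) (b' := aB + H) hα0 hwθ2 haB0
    (by linarith) (by linarith) (by linarith)
  obtain ⟨C0, hC0⟩ : ∃ C0 : ℝ, C0 = CT + CB := ⟨_, rfl⟩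
  obtain ⟨C, hC⟩ : ∃ C : ℝ, C = C1 + C2 := ⟨_, rfl⟩
  have hC00 : 0 < C0 := by linarith
  have hCp : 0 < C := by linarith
  -- coverage
  obtain ⟨h2, hh2, hcov2⟩ := cover_2 θ c α hθ.le hc hα100
  obtain ⟨h3, hh3, hcov3⟩ := cover_3 θ c α hθ.le hc hα100
  obtain ⟨h4, hh4, hcov4⟩ := cover_4 θ c α hθ.le hc hα100
  obtain ⟨h, hh⟩ : ∃ h : ℝ, h = min (min h2 h3) (min h4 (H / 4)) := ⟨_, rfl⟩
  have hh0 : 0 < h := by
    rw [hh]
    exact lt_min (lt_min hh2 hh3) (lt_min hh4 (by linarith))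
  have hhH : h ≤ H / 4 := by
    rw [hh]
    exact (min_le_right _ _).trans (min_le_right _ _)
  obtain ⟨c2, hc2, hcov2⟩ := hcov2 h hh0 (by
    rw [hh]
    exact (min_le_left _ _).trans (min_le_left _ _))
  obtain ⟨c3, hc3, hcov3⟩ := hcov3 h hh0 (by
    rw [hh]
    exact (min_le_left _ _).trans (min_le_right _ _))
  obtain ⟨c4, hc4, hcov4⟩ := hcov4 h hh0 (by
    rw [hh]
    exact (min_le_right _ _).trans (min_le_left _ _))
  obtain ⟨c1, hc1⟩ : ∃ c1 : ℝ, c1 = min c2 (min c3 c4) := ⟨_, rfl⟩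
  have hc10 : 0 < c1 := by
    rw [hc1]
    exact lt_min hc2 (lt_min hc3 hc4)
  have hc12 : c1 ≤ c2 := by
    rw [hc1]
    exact min_le_left _ _
  have hc13 : c1 ≤ c3 := by
    rw [hc1]
    exact (min_le_right _ _).trans (min_le_left _ _)
  have hc14 : c1 ≤ c4 := by
    rw [hc1]
    exact (min_le_right _ _).trans (min_le_right _ _)
  -- weights of windows
  obtain ⟨dw, hdw⟩ := win_ge α w hα0 hw0
  obtain ⟨dh, hdh⟩ := win_ge α (H / 4) hα0 (by linarith)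
  obtain ⟨du, hdu⟩ := TF.win α s0 1 hα0 one_pos
  obtain ⟨dt, hdt⟩ := WtT α hα0
  obtain ⟨ds, hds⟩ := WtT (s0 / 2) (by linarith)
  obtain ⟨WU, hWU⟩ : ∃ WU : ℝ, WU = |Real.log (s0 / α)| + 1 := ⟨_, rfl⟩
  have hWU0 : 0 < WU := by
    rw [hWU]
    positivity
  obtain ⟨ρ, hρ⟩ : ∃ ρ : ℝ, ρ = 1 / (20 * WU) := ⟨_, rfl⟩
  have hρ0 : 0 < ρ := by
    rw [hρ]
    positivity
  have hρW : ρ * WU = 1 / 20 := by
    rw [hρ]
    field_simp
  have hs1le := hn.s1le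
  have hw1 : w ≤ 1 := by linarith [hn.ws0, hn.s0s1]
  obtain ⟨κD, r0, hκD0, hr00, hr01, hr0ρ, hκD3, hκD1, hκD1', hrD, hr1, hr3, hrfill, hrσ⟩ :=
    ch_kD hκ3 hκ1 (lt_min hσ0 (show (0 : ℝ) < 1 / 40 by norm_num)) hw0 hw1 hWU0 hρ0 m1 mB M hM1
  -- the accuracy of the model
  obtain ⟨x, hx⟩ : ∃ x : ℝ, x = κD ^ 7 / (5040 * 8) := ⟨_, rfl⟩
  have hx0 : 0 < x := by
    rw [hx]
    positivity
  obtain ⟨εM, hεM⟩ : ∃ εM : ℝ, εM = min (min (1 / 8) ε0) (x / C0) := ⟨_, rfl⟩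
  have hεM0 : 0 < εM := by
    rw [hεM]
    exact lt_min (lt_min (by norm_num) hε0) (by positivity)
  have hεM8 : εM ≤ 1 / 8 := by
    rw [hεM]
    exact (min_le_left _ _).trans (min_le_left _ _)
  have hεMε : εM ≤ ε0 := by
    rw [hεM]
    exact (min_le_left _ _).trans (min_le_right _ _)
  have hεMx : C0 * εM ≤ x := by
    have h1 : εM ≤ x / C0 := by
      rw [hεM]
      exact min_le_right _ _
    rw [le_div_iff₀ hC00] at h1
    linarith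
  obtain ⟨e0, he0, hstep2⟩ := step2 k M (by omega) (by omega) εM r0 hεM0 hr00 hr01
  -- the chain
  obtain ⟨n, hnn⟩ : ∃ n : ℕ, n = ⌈(s0 - α) / (H / 4)⌉₊ := ⟨_, rfl⟩
  have hn1 : 1 ≤ n := by
    rw [hnn]
    exact Nat.one_le_ceil_iff.2 (div_pos (by linarith) (by linarith))
  have hn2 : s0 ≤ α + (n + 1) * (H / 4) := by
    have h1 := Nat.le_ceil ((s0 - α) / (H / 4))
    rw [← hnn, div_le_iff₀ (by linarith)] at h1
    linarith
  have hn3 : ∀ m : ℕ, m < n → α + m * (H / 4) ≤ s0 := by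
    intro m hm
    have h1 := Nat.lt_ceil.1 (hnn ▸ hm)
    rw [lt_div_iff₀ (by linarith)] at h1
    linarith
  have hnR : (1 : ℝ) ≤ n := by exact_mod_cast hn1
  obtain ⟨e, he⟩ : ∃ e : ℝ, e = e0 / (42 * (n + 1)) := ⟨_, rfl⟩
  have hee : 0 < e := by
    rw [he]
    positivity
  have hee2 : (n + 1) * (16 * e + 10 * e) + 13 * e + 3 * e ≤ e0 := by
    have h1 : e * (42 * (n + 1)) = e0 := by
      rw [he]
      field_simp
    nlinarith
  obtain ⟨δ, hδ⟩ : ∃ δ : ℝ, δ = min (H / 32) (e0 * w / (2 * n)) := ⟨_, rfl⟩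
  have hδ0 : 0 < δ := by
    rw [hδ]
    exact lt_min (by linarith) (by positivity)
  have hδH : δ ≤ H / 32 := by
    rw [hδ]
    exact min_le_left _ _
  have hδn : n * δ ≤ e0 * (w / 2) := by
    have h1 : δ ≤ e0 * w / (2 * n) := by
      rw [hδ]
      exact min_le_right _ _
    rw [le_div_iff₀ (by positivity)] at h1
    linarith
  -- the thresholds
  obtain ⟨y0, hy0⟩ : ∃ y0 : ℝ, y0 = c1 * (1 / (20 * ((k : ℝ) + 4))) ^ k := ⟨_, rfl⟩
  have hy00 : 0 < y0 := by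
    rw [hy0]
    positivity
  obtain ⟨κ, κm, hκm0, hκ0, hκx, hκy, hκz, hκm⟩ := ch_thr hx0 hy00 (mul_pos hee hδ0) k (by omega)
  rw [hy0] at hκy
  obtain ⟨τ0, hτ0, dP, hWP⟩ := hWP (κ 7) (hκ0 7)
  obtain ⟨τ, ht0, htτ, ht2, htk, ht8⟩ := ch_tau hτ0 hee hκm0 one_pos (C := 2 * CL) (by linarith) k
  rw [Real.sqrt_one, div_one] at htk
  -- the exponent
  obtain ⟨δ1, hδ1⟩ : ∃ δ1 : ℝ, δ1 = min ev δw / 2 := ⟨_, rfl⟩
  have hδ10 : 0 < δ1 := by
    rw [hδ1]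
    exact half_pos (lt_min hev hδw)
  have hδ1e : 2 * δ1 ≤ ev := by
    rw [hδ1]
    linarith [min_le_left ev δw]
  have hδ1w : 2 * δ1 ≤ δw := by
    rw [hδ1]
    linarith [min_le_right ev δw]
  obtain ⟨dX, hdX⟩ := TR.ev_pow (ev / 2) (by linarith) (C / (τ * CL))
  obtain ⟨dY, hdY⟩ := TR.ev_pow ev hev ((C / (κm ^ 2 / 16)) ^ 2)
  obtain ⟨dZ, hdZ⟩ := TR.ev_pow δ1 hδ10 2
  -- the kernel
  obtain ⟨mF, dF2, hfew2⟩ := few α τ hα0 (by linarith) ht0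
  obtain ⟨Bd, hker⟩ := kernel_kr mF τ ht0
  obtain ⟨dT, hCT⟩ := hCT Bd
  obtain ⟨dB, hCB⟩ := hCB Bd
  obtain ⟨dc2, hcov2⟩ := hcov2 Bd
  obtain ⟨dc3, hcov3⟩ := hcov3 Bd
  obtain ⟨dc4, hcov4⟩ := hcov4 Bd
  obtain ⟨dW, hCW⟩ := hCW Bd
  refine ⟨min α cw, lt_min hα0 hcw, δ1, hδ10,
    dF + dA3 + dA1 + dC1 + dC2 + dw + dh + du + dt + ds + dP + dF2 + dT + dB + dc2 + dc3 + dc4 + dW + dL + dX + dY + dZ, ?_⟩
  intro d hd _ hBA
  have hd1 : 1 ≤ d := NeZero.one_le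
  have g1 := hfew d (by omega)
  have g2 := hA3' d (by omega) hBA
  have g3 := hA1' d (by omega) hBA
  have g4 := hC1 d (by omega)
  have g5 := hC2 d (by omega)
  have g6 := hdw d (by omega)
  have g7 := hdh d (by omega)
  have g8 := hdu d (by omega) α s0 le_rfl (by linarith) le_rfl
  have g9 := hdt d (by omega)
  have g10 := hds d (by omega)
  have g11 := hWP d (by omega) hBA
  have g12 := hfew2 d (by omega)
  have g13 := hL d (by omega) hBA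
  have g14 := hdX d (by omega)
  have g15 := hdY d (by omega)
  have g16 := hdZ d (by omega)
  have hdR1 : (1 : ℝ) ≤ d := by exact_mod_cast hd1
  have hdR0 : (0 : ℝ) < d := by linarith
  rw [show 2 * (s0 / 2) = s0 by ring] at g10
  rw [show 2 * (s0 / 2) = s0 by ring] at g1
  -- the kernel
  obtain ⟨X, hXd⟩ : ∃ X : Finset (DirichletCharacter ℂ d), X = univ.filter (fun χ => τ ≤ ‖Pa (PW d α (2 * α)) χ‖) := ⟨_, rfl⟩
  have hXc : X.card ≤ mF := g12 X fun χ hχ => by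
    rw [hXd] at hχ
    exact (mem_filter.1 hχ).2
  have hX : ∀ χ, χ ∉ X → ‖Pa (PW d α (2 * α)) χ‖ ≤ τ := by
    intro χ hχ
    by_contra hcon
    apply hχ
    rw [hXd]
    exact mem_filter.2 ⟨mem_univ _, (not_le.1 hcon).le⟩
  obtain ⟨S, hS1, hS2, hK⟩ := hker d X hXc
  obtain ⟨β, hβd⟩ : ∃ β : (ZMod d)ˣ → ℝ, β = kr S := ⟨_, rfl⟩
  rw [← hβd] at hK
  have k1 : ∀ (i : ℕ) (x : (ZMod d)ˣ), sm β (EW d α i aT (aT + H)) x ≤ CT := by
    rw [hβd]
    exact hCT d (by omega) hBA S hS1 hS2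
  have k2 : ∀ (i : ℕ) (x : (ZMod d)ˣ), sm β (EW d α i aB (aB + H)) x ≤ CB := by
    rw [hβd]
    exact hCB d (by omega) hBA S hS1 hS2
  have k6 : ∀ x : (ZMod d)ˣ, sm β (EW d α 1 (11 / 10 * θ) (w * mB)) x ≤ CW := by
    rw [hβd]
    exact hCW d (by omega) hBA S hS1 hS2 1
  have k3 : ∀ a : ℝ, 23526 / 10000 * θ ≤ a → a ≤ 3 / 2 → ∀ x : (ZMod d)ˣ, c1 ≤ ∑ i ∈ Icc 1 2, sm β (EW d α i a (a + h)) x := by
    rw [hβd]
    exact fun a ha ha' x => hc12.trans (hcov2 d (by omega) hBA S hS1 hS2 a ha ha' x)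
  have k4 : ∀ a : ℝ, 1598 / 1000 * θ ≤ a → a ≤ 3 / 2 → ∀ x : (ZMod d)ˣ, c1 ≤ ∑ i ∈ Icc 1 3, sm β (EW d α i a (a + h)) x := by
    rw [hβd]
    exact fun a ha ha' x => hc13.trans (hcov3 d (by omega) hBA S hS1 hS2 a ha ha' x)
  have k5 : ∀ a : ℝ, 13838 / 10000 * θ ≤ a → a ≤ 3 / 2 → ∀ x : (ZMod d)ˣ, c1 ≤ ∑ i ∈ Icc 1 4, sm β (EW d α i a (a + h)) x := by
    rw [hβd]
    exact fun a ha ha' x => hc14.trans (hcov4 d (by omega) hBA S hS1 hS2 a ha ha' x)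
  -- the weights
  have hWl : w / 2 ≤ Wt (PW d α s0) := g6 α s0 le_rfl (by linarith [hn.ws0, hn.H4, hn.h7w]) (by linarith [hn.Hs])
  have hWu : Wt (PW d α s0) ≤ WU := by
    have h1 := (abs_le.1 g8).2
    have h2 := le_abs_self (Real.log (s0 / α))
    rw [hWU]
    show ∑ p ∈ PW d α s0, 1 / (p : ℝ) ≤ _
    linarith
  have hWρ : ρ * Wt (PW d α s0) ≤ 1 / 20 := by
    rw [← hρW]
    exact mul_le_mul_of_nonneg_left hWu hρ0.le
  -- the exceptional classes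
  by_contra hcon
  push Not at hcon
  obtain ⟨SE, hSE⟩ : ∃ SE : Finset (ZMod d)ˣ, SE = univ.filter (fun z => Unr d (4 * θ + ε) (min α cw) (k + 1) z) := ⟨_, rfl⟩
  have hSEc : (SE : Set (ZMod d)ˣ) = {z : (ZMod d)ˣ | Unr d (4 * θ + ε) (min α cw) (k + 1) z} := by
    rw [hSE]
    ext z
    simp
  rw [← hSEc] at hcon
  have hSEu : ∀ z ∈ SE, Unr d (4 * θ + ε) (min α cw) (k + 1) z := by
    intro z hz
    rw [hSE] at hz
    exact (mem_filter.1 hz).2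
  -- first step
  have hvpos : 0 < (d : ℝ) ^ (-ev) := Real.rpow_pos_of_pos hdR0 _
  have hSE0 : 0 < mu (SE : Set (ZMod d)ˣ) := lt_trans (Real.rpow_pos_of_pos hdR0 _) hcon
  have hSEne : SE.Nonempty := by
    rw [nonempty_iff_ne_empty]
    intro h0
    rw [h0, coe_empty, mu_empty] at hSE0
    exact lt_irrefl _ hSE0
  have hvC : (d : ℝ) ^ (-ev) * C ≤ τ * CL * √(mu (SE : Set (ZMod d)ˣ)) := by
    have h1 : (d : ℝ) ^ (-(ev / 2)) ≤ √(mu (SE : Set (ZMod d)ˣ)) := by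
      refine Real.le_sqrt_of_sq_le ?_
      refine le_trans (le_of_eq ?_) ((Real.rpow_le_rpow_of_exponent_le hdR1 (show -ev ≤ -δ1 by linarith)).trans hcon.le)
      rw [← Real.rpow_natCast, ← Real.rpow_mul hdR0.le]
      congr 1
      push_cast
      ring
    have h2 : C ≤ τ * CL * (d : ℝ) ^ (ev / 2) := by
      rw [div_le_iff₀ (by positivity)] at g14
      linarith
    have h3 : (d : ℝ) ^ (-ev) * (d : ℝ) ^ (ev / 2) = (d : ℝ) ^ (-(ev / 2)) := by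
      rw [← Real.rpow_add hdR0]
      congr 1
      ring
    calc (d : ℝ) ^ (-ev) * C ≤ (d : ℝ) ^ (-ev) * (τ * CL * (d : ℝ) ^ (ev / 2)) := mul_le_mul_of_nonneg_left h2 hvpos.le
      _ = τ * CL * ((d : ℝ) ^ (-ev) * (d : ℝ) ^ (ev / 2)) := by ring
      _ = τ * CL * (d : ℝ) ^ (-(ev / 2)) := by rw [h3]
      _ ≤ τ * CL * √(mu (SE : Set (ZMod d)ˣ)) := mul_le_mul_of_nonneg_left h1 (by positivity)
  have hLw : ∀ (i : ℕ) (a b : ℝ), 11 / 10 * θ ≤ a → b ≤ 3 → ∀ Ξ : Finset (DirichletCharacter ℂ d),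
      (∀ χ ∈ Ξ, (d : ℝ) ^ (-ev) ≤ ‖Pa (PW d α (2 * α)) χ‖) → ∑ χ ∈ Ξ, ‖TR.DA (EW d α i a b) χ‖ ^ 2 ≤ CL := by
    intro i a b ha hb Ξ hΞ
    exact g13 _ (fun n hn => EW_rng hd1 ha hb hn) Ξ hΞ
  obtain ⟨g, hR, hR0⟩ := relsp (k := k) (by omega) hK ht0.le (τ := τ) (v := (d : ℝ) ^ (-ev)) (C := C) (C2 := CL) (D := 4 * τ * CL)
    ht0.le hvpos.le (α := α) (aT := aT) (aB := aB) (H := H) (hb := H / 2)
    (E := 4 * θ + ε) hα0 hκ0 hX g9 (fun i j x => (g4 i j x).trans (by linarith)) (fun i j x => (g5 i j x).trans (by linarith))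
    (fun i => hLw i _ _ (by linarith [hn.aT3]) (by linarith [hn.aT32, hn.Hs]))
    (fun i => hLw i _ _ (by linarith [hn.aT3]) (by linarith [hn.aT32, hn.Hs]))
    (fun i => hLw i _ _ (by linarith [hn.aB2]) (by linarith [hn.aB32, hn.Hs]))
    (cov_win hK.nonneg hα0 (k4 aT (by linarith [hn.aT3]) hn.aT32) (by norm_num) hc10.le (by linarith) g9 hκ0 hκy)
    (cov_win hK.nonneg hα0 (k4 (aT - α) (by linarith [hn.aT3]) (by linarith [hn.aT32])) (by norm_num) hc10.le (by linarith) g9 hκ0 hκy)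
    (cov_win hK.nonneg hα0 (k3 aB hn.aB2 hn.aB32) (by norm_num) hc10.le (by linarith) g9 hκ0 hκy)
    (by linarith [hn.hHε]) (by linarith) SE hSEne (by
      obtain ⟨m, hm⟩ : ∃ m : ℝ, m = mu (SE : Set (ZMod d)ˣ) := ⟨_, rfl⟩
      rw [← hm] at hvC hSE0 ⊢
      have h1 := mul_le_mul_of_nonneg_right hvC (Real.sqrt_nonneg m)
      have h2 : √m * √m = m := Real.mul_self_sqrt hSE0.le
      have h3 : τ * CL * √m * √m = τ * CL * m := by rw [mul_assoc, h2]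
      rw [h3] at h1
      linarith)
    (fun z hz => unr_mono hd1 le_rfl (min_le_left _ _) (hSEu z hz)) hκm0 hκm (by
      refine le_trans ?_ htk
      have h1 : (0 : ℝ) ≤ k * (τ * CL) := by positivity
      linarith)
  -- second step
  obtain ⟨N, t, γ, A, hN1, hN2, hN3, hN4, hN5⟩ := hstep2 d X τ _ β (EK.bh S) hK (by linarith) n α aT H (H / 2) s0 (H / 4) e e δ ρ τ κ
    (fun i => Th d β α κ i aB (aB + H)) g (by linarith) (by linarith) hn2 hn1 hee.le hκ0 hee hκz (by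
      intro m hm
      have h1 := hn3 m hm
      have h2 := g7 (α + (m + 1) * (H / 4)) (α + (m + 2) * (H / 4)) (by
        have : 0 ≤ ((m : ℝ) + 1) * (H / 4) := by positivity
        linarith) (by linarith) (by linarith [hn.Hs])
      linarith) hR hR0 (by
      intro m hm j hj1 hj2 x
      have h1 := hn3 m hm
      have h2 : 0 ≤ (m : ℝ) * (H / 4) := by positivity
      have h3 := icc_four (cov_win (A' := aT - (α + m * (H / 4)) + H / 2) hK.nonneg hα0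
        (k5 (aT - (α + m * (H / 4))) (by linarith [hn.aT4]) (by linarith [hn.aT32])) (by norm_num) hc10.le (by linarith) g9 hκ0 hκy
        j hj1 (by omega) x)
      rw [show 1 + (j - 1) = j by omega, show 2 + (j - 1) = j + 1 by omega, show 3 + (j - 1) = j + 2 by omega,
        show 4 + (j - 1) = j + 3 by omega] at h3
      exact h3) hee2 (hδn.trans (mul_le_mul_of_nonneg_left hWl he0.le)) (by linarith) hρ0 (hWρ.trans g10) (hWρ.trans g9) hαs0 hr0ρ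
    (fun Y hY => (g1 Y hY).trans (by omega)) hX ht2
  -- third step
  have ht1 : t ≠ 1 := by
    intro h1
    have h2 : ∃ x, x ∈ A := by
      rcases hN2.cov 1 with h3 | h3 | h3
      · exact ⟨_, h3⟩
      · exact ⟨_, h3⟩
      · exact ⟨_, h3⟩
    obtain ⟨y, hy⟩ := h2
    apply hN2.disj y hy
    rw [h1]
    have h3 : y * 1 = y := mul_one y
    rwa [h3]
  have hκ7 := hκx 7
  have hκ4 := hκx 4
  have hx7 : 8 * x = κD ^ 7 / ((7 : ℕ).factorial : ℝ) := by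
    rw [hx, show ((7 : ℕ).factorial : ℝ) = 5040 by norm_num [Nat.factorial]]
    ring
  have hx4 : 8 * x ≤ κD ^ 4 / ((4 : ℕ).factorial : ℝ) := by
    rw [hx, show ((4 : ℕ).factorial : ℝ) = 24 by norm_num [Nat.factorial]]
    have h1 : κD ^ 7 ≤ κD ^ 4 := pow_le_pow_of_le_one hκD0.le hκD1' (by norm_num)
    have h2 : 0 < κD ^ 4 := by positivity
    linarith
  obtain ⟨ψ, hψ, hψT, hψB, hψσ⟩ := step3 (k := k) (M := M) hk hK.nonneg (α := α) (aT := aT) (aB := aB) (H := H) (s0 := s0) (s1 := s1)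
    (w := w) (σ := w) (v := v) (κD := κD) (κ3 := κ3) (κ1 := κ1) (m := κD) (ε := εM) (C0 := C0) (r := r0 * WU) (m1 := m1) (mB := mB)
    hN1 hN2 (hN3.trans (mul_le_mul_of_nonneg_left hWu hr00.le)) hN4 hN5 hκD0 le_rfl (fun a ha ha' => g6 a (a + w) ha le_rfl ha')
    (fun x => (k1 7 x).trans (by linarith)) (fun x => (k2 4 x).trans (by linarith)) hC00.le hκ0 (by linarith) (by linarith)
    (g2 N t hN1 ht1) (g3 N t hN1 ht1) hα0 hw0 hn.v0 hn.s0s1 (by linarith) hn.ws0 hαw hw0 hα7 hH0 hn.h7w hn.hiT hn.hiB hn.m1a hn.m1b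
    hn.mBa hn.v2 hr1 hr3 hκD3 hκD1 hrD hrfill
  have hσ1 := hψσ.trans (hrσ.trans (min_le_left _ _))
  have hσ2 := hψσ.trans (hrσ.trans (min_le_right _ _))
  -- the right parity
  have h2α : 2 * α ≤ w * mB := hαu
  have hUψ : ∑ p ∈ (PW d α (2 * α)).filter (fun p => ψ (ucl d p) = 1), 1 / (p : ℝ) ≤ Wt (PW d α (2 * α)) / 2 := by
    have h1 : ∑ p ∈ (PW d α (2 * α)).filter (fun p => ψ (ucl d p) = 1), 1 / (p : ℝ) ≤
        ∑ p ∈ (PW d α (w * mB)).filter (fun p => ψ (ucl d p) = 1), 1 / (p : ℝ) := by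
      refine sum_le_sum_of_subset_of_nonneg ?_ fun _ _ _ => by positivity
      exact filter_subset_filter _ (PW_mono hd1 le_rfl h2α)
    linarith
  have hWα : 0 < Wt (PW d α (2 * α)) := by linarith
  obtain ⟨ER, hER⟩ : ∃ ER : Finset (ZMod d)ˣ, ER = SE.filter (fun z => ψ z = (-1) ^ (k + 1)) := ⟨_, rfl⟩
  have hblk := blkp hK ht0.le (τ := τ) (v := (d : ℝ) ^ (-ev)) (C := C) (C2 := CL) ht0.le hvpos.le (PW d α (2 * α))
    (EW d α 7 aT (aT + H)) (EW d α (k - 7) aB (aB + H)) (fun p hp => PW_coprime hp)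
    (fun p hp => EW_coprime hp) (fun p hp => EW_coprime hp) hWα hX (fun x => (g4 7 (k - 7) x).trans (by linarith))
    (hLw 7 _ _ (by linarith [hn.aT3]) (by linarith [hn.aT32, hn.Hs])) (hLw (k - 7) _ _ (by linarith [hn.aB2]) (by linarith [hn.aB32, hn.Hs])) ER (by
      intro z hz p hp m hm n hn'
      have h1 := prod_mem hd1 (E := 4 * θ + ε) (by linarith [hn.hHε]) hp hm hn'
      rw [hER] at hz
      have h2 := unr_mono hd1 le_rfl (min_le_left _ _) (hSEu z (mem_filter.1 hz).1)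
      refine h2 _ h1.1 h1.2.1 ?_
      rw [h1.2.2]
      omega)
  have hκκ : κm ^ 2 ≤ κ 7 * κ (k - 7) := by
    rw [sq]
    exact mul_le_mul (hκm 7 (by norm_num) (by omega)) (hκm (k - 7) (by omega) (by omega)) hκm0.le (hκ0 7).le
  have hκκ0 : 0 < κ 7 * κ (k - 7) := mul_pos (hκ0 _) (hκ0 _)
  have hτκ : (2 * τ + τ) * CL ≤ κ 7 * κ (k - 7) / 16 := by
    have h1 : √(1 / 3 : ℝ) ≤ 1 := by
      rw [Real.sqrt_le_iff]
      norm_num
    have h2 := ht8.trans h1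
    rw [div_le_one (by positivity)] at h2
    linarith
  have hright := right_smallp hψ (U := PW d α (2 * α)) hWα hUψ (T := Th d β α κ 7 aT (aT + H)) (B := Th d β α κ (k - 7) aB (aB + H))
    (i := 7) (j := k - 7) (hψT 7 (by norm_num) (by omega)) (hψB (k - 7) (by omega) (by omega)) hεM8
    (f := cv (sm β (EW d α 7 aT (aT + H))) (sm β (EW d α (k - 7) aB (aB + H)))) (a := κ 7 * κ (k - 7)) (D := (2 * τ + τ) * CL)
    (V := (d : ℝ) ^ (-ev) * C)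
    hκκ0 (fun g => av_nonneg fun y => mul_nonneg (sm_nonneg hK.nonneg _ _) (sm_nonneg hK.nonneg _ _))
    (fun g => pair_of_cv hK.nonneg (hκ0 _).le (hκ0 _).le g) ER (by
      intro z hz
      rw [hER] at hz
      rw [(mem_filter.1 hz).2]
      congr 1
      omega) hτκ hblk
  have hright2 : mu (ER : Set (ZMod d)ˣ) ≤ (d : ℝ) ^ (-ev) := by
    refine hright.trans ?_
    have h1 : (d : ℝ) ^ (-ev) * C / (κ 7 * κ (k - 7) / 16) ≤ (d : ℝ) ^ (-ev) * (C / (κm ^ 2 / 16)) := by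
      rw [mul_div_assoc]
      refine mul_le_mul_of_nonneg_left ?_ hvpos.le
      exact div_le_div_of_nonneg_left hCp.le (by positivity) (by linarith)
    calc ((d : ℝ) ^ (-ev) * C / (κ 7 * κ (k - 7) / 16)) ^ 2 ≤ ((d : ℝ) ^ (-ev) * (C / (κm ^ 2 / 16))) ^ 2 :=
          pow_le_pow_left₀ (by positivity) h1 2
      _ = (d : ℝ) ^ (-ev) * ((d : ℝ) ^ (-ev) * (C / (κm ^ 2 / 16)) ^ 2) := by ring
      _ ≤ (d : ℝ) ^ (-ev) * ((d : ℝ) ^ (-ev) * (d : ℝ) ^ ev) :=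
          mul_le_mul_of_nonneg_left (mul_le_mul_of_nonneg_left g15 hvpos.le) hvpos.le
      _ = (d : ℝ) ^ (-ev) := by
        rw [← Real.rpow_add hdR0, neg_add_cancel, Real.rpow_zero, mul_one]
  -- the wrong parity
  have hwrong := g11 X _ β (EK.bh S) (ker_mono hK htτ) (fun χ hχ => (hX χ hχ).trans htτ) ψ hψ hσ1 k6
    ((hψT 7 (by norm_num) (by omega)).trans hεMε)
  have htot : mu (SE : Set (ZMod d)ˣ) ≤ mu (ER : Set (ZMod d)ˣ) + (d : ℝ) ^ (-δw) := by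
    refine (mu_cov2 (B := (ER : Set (ZMod d)ˣ)) fun z hz => ?_).trans (add_le_add le_rfl hwrong)
    have hz' : z ∈ SE := by exact_mod_cast hz
    by_cases h1 : ψ z = (-1) ^ (k + 1)
    · left
      rw [hER]
      exact_mod_cast mem_filter.2 ⟨hz', h1⟩
    · right
      have h2 : ψ z = (-1) ^ k := neg_pow_ne.1 h1
      refine ⟨?_, ?_⟩
      · rw [h2]
        congr 1
        omega
      · intro n hn1' hn2' hn3'
        exact unr_mono hd1 le_rfl (min_le_right _ _) (hSEu z hz') n hn1' hn2' (by rw [hn3']; omega)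
  have t1' : (d : ℝ) ^ (-ev) ≤ (d : ℝ) ^ (-(2 * δ1)) := Real.rpow_le_rpow_of_exponent_le hdR1 (by linarith)
  have t2' : (d : ℝ) ^ (-δw) ≤ (d : ℝ) ^ (-(2 * δ1)) := Real.rpow_le_rpow_of_exponent_le hdR1 (by linarith)
  have t3' : 2 * (d : ℝ) ^ (-(2 * δ1)) ≤ (d : ℝ) ^ (-δ1) := by
    calc 2 * (d : ℝ) ^ (-(2 * δ1)) ≤ (d : ℝ) ^ δ1 * (d : ℝ) ^ (-(2 * δ1)) :=
          mul_le_mul_of_nonneg_right g16 (Real.rpow_nonneg hdR0.le _)
      _ = (d : ℝ) ^ (-δ1) := by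
        rw [← Real.rpow_add hdR0]
        congr 1
        ring
  linarith

end Pool.Agent.Lib.MP_42948a_nt.TV
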