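import Pool.Agent.Lib.MP_42948a_nt.TV.P8
import Pool.Agent.Lib.MP_42948a_nt.TS.Z2

/-!
# Exactly `K` primes in all classes outside a power saving set: from units to integers
-/

set_option linter.unusedSectionVars false

namespace Pool.Agent.Lib.MP_42948a_nt.TV

open Finset Pool.Agent.Lib.MP_42948a_nt.OA Pool.Agent.Lib.MP_42948a_nt.TQ Pool.Agent.Lib.MP_42948a_nt.PS
  Pool.Agent.Lib.MP_42948a_nt.TF Pool.Agent.Lib.MP_42948a_nt.TS

open Classical in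
/-- one modulus class: finitely many `K` at once -/
theorem manyp (θ c ε : ℝ) (L : ℕ) (hθ : 1 / 4 < θ) (hθ1 : θ ≤ 7 / 20) (hc : 0 < c) (hε : 0 < ε) :
    ∃ c' : ℝ, 0 < c' ∧ ∃ d0 : ℕ, ∀ d : ℕ, d0 ≤ d → ∀ [NeZero d], BA θ c d → ∀ c'' : ℝ, c'' ≤ c' →
      (((range d).filter (fun a => a.Coprime d ∧ ∃ K : ℕ, 11 ≤ K ∧ K ≤ L ∧ ¬ Rp d (4 * θ + ε) c'' K a)).card : ℝ) ≤
        (d : ℝ) ^ (1 - c'') := by
  have hL : (0 : ℝ) < (L : ℝ) + 1 := by positivity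
  have h1 : ∀ K : ℕ, ∃ c' : ℝ, 0 < c' ∧ ∃ δ : ℝ, 0 < δ ∧ ∃ d0 : ℕ, 11 ≤ K → ∀ d : ℕ, d0 ≤ d → ∀ [NeZero d], BA θ c d →
      mu {z : (ZMod d)ˣ | Unr d (4 * θ + ε) c' K z} ≤ (d : ℝ) ^ (-δ) := by
    intro K
    by_cases hK : 11 ≤ K
    · obtain ⟨c', hc', δ, hδ, d0, h2⟩ := main_BAp θ c ε (K - 1) hθ hθ1 hc hε (by omega)
      rw [show K - 1 + 1 = K by omega] at h2
      exact ⟨c', hc', δ, hδ, d0, fun _ => h2⟩
    · exact ⟨1, one_pos, 1, one_pos, 0, fun h => absurd h hK⟩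
  choose c' hc' δ hδ d0 h2 using h1
  obtain ⟨cm, hcm, hcm'⟩ : ∃ cm : ℝ, 0 < cm ∧ ∀ K ∈ range (L + 1), cm ≤ c' K := by
    refine ⟨(range (L + 1)).inf' ⟨0, mem_range.2 (Nat.succ_pos _)⟩ c', ?_, fun K hK => inf'_le _ hK⟩
    rw [lt_inf'_iff]
    exact fun K _ => hc' K
  obtain ⟨δm, hδm, hδm'⟩ : ∃ δm : ℝ, 0 < δm ∧ ∀ K ∈ range (L + 1), δm ≤ δ K := by
    refine ⟨(range (L + 1)).inf' ⟨0, mem_range.2 (Nat.succ_pos _)⟩ δ, ?_, fun K hK => inf'_le _ hK⟩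
    rw [lt_inf'_iff]
    exact fun K _ => hδ K
  obtain ⟨dz, hdz⟩ := TR.ev_pow (δm / 2) (by linarith) (L + 1)
  refine ⟨min cm (δm / 2), lt_min hcm (by linarith), dz + ∑ K ∈ range (L + 1), d0 K, ?_⟩
  intro d hd _ hBA c'' hc''
  have hd1 : 1 ≤ d := NeZero.one_le
  have hdR : (1 : ℝ) ≤ d := by exact_mod_cast hd1
  have hd0 : (0 : ℝ) < d := by linarith
  have hc''1 : c'' ≤ cm := hc''.trans (min_le_left _ _)
  have hc''2 : c'' ≤ δm / 2 := hc''.trans (min_le_right _ _)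
  have key : (((range d).filter (fun a => a.Coprime d ∧ ∃ K : ℕ, 11 ≤ K ∧ K ≤ L ∧ ¬ Rp d (4 * θ + ε) c'' K a)).card : ℝ) ≤
      (d : ℝ) ^ (-(δm / 2)) * (Nat.totient d : ℝ) := by
    refine card_le_of_mu (Q := fun z => ∃ K ∈ (range (L + 1)).filter (fun K => 11 ≤ K), Unr d (4 * θ + ε) (c' K) K z) ?_ ?_
    · rintro a ha ⟨K, hK1, hK2, hK3⟩
      have h3 : K ∈ range (L + 1) := mem_range.2 (by omega)
      exact ⟨K, mem_filter.2 ⟨h3, hK1⟩, unr_mono hd1 le_rfl (hc''1.trans (hcm' K h3)) (unr_of_rp (by omega) ha hK3)⟩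
    · have h3 : ∀ s : Finset ℕ, mu {z : (ZMod d)ˣ | ∃ K ∈ s, Unr d (4 * θ + ε) (c' K) K z} ≤
          ∑ K ∈ s, mu {z : (ZMod d)ˣ | Unr d (4 * θ + ε) (c' K) K z} := by
        intro s
        induction s using Finset.induction_on with
        | empty =>
          rw [sum_empty]
          have h4 : {z : (ZMod d)ˣ | ∃ K ∈ (∅ : Finset ℕ), Unr d (4 * θ + ε) (c' K) K z} = ∅ := by
            ext z
            simp
          rw [h4, mu_empty]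
        | insert K s hK ih =>
          rw [sum_insert hK]
          refine (mu_cov2 (B := {z : (ZMod d)ˣ | Unr d (4 * θ + ε) (c' K) K z})
            (C := {z : (ZMod d)ˣ | ∃ K ∈ s, Unr d (4 * θ + ε) (c' K) K z}) ?_).trans (add_le_add le_rfl ih)
          rintro z ⟨K', hK', hz⟩
          rcases mem_insert.1 hK' with h5 | h5
          · left
            rw [← h5]
            exact hz
          · exact Or.inr ⟨K', h5, hz⟩
      refine (h3 _).trans ?_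
      have h4 : ∀ K ∈ (range (L + 1)).filter (fun K => 11 ≤ K), mu {z : (ZMod d)ˣ | Unr d (4 * θ + ε) (c' K) K z} ≤
          (d : ℝ) ^ (-δm) := by
        intro K hK
        obtain ⟨hK1, hK2⟩ := mem_filter.1 hK
        have h5 : d0 K ≤ ∑ K ∈ range (L + 1), d0 K := single_le_sum (f := d0) (fun _ _ => Nat.zero_le _) hK1
        refine (h2 K hK2 d (by omega) hBA).trans ?_
        refine Real.rpow_le_rpow_of_exponent_le hdR ?_
        linarith [hδm' K hK1]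
      refine (sum_le_sum h4).trans ?_
      rw [sum_const, nsmul_eq_mul]
      have h5 : (((range (L + 1)).filter (fun K => 11 ≤ K)).card : ℝ) ≤ (L : ℝ) + 1 := by
        have h6 : ((range (L + 1)).filter (fun K => 11 ≤ K)).card ≤ (range (L + 1)).card := card_filter_le _ _
        rw [card_range] at h6
        exact_mod_cast h6
      calc (((range (L + 1)).filter (fun K => 11 ≤ K)).card : ℝ) * (d : ℝ) ^ (-δm) ≤ (d : ℝ) ^ (δm / 2) * (d : ℝ) ^ (-δm) :=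
            mul_le_mul_of_nonneg_right (h5.trans (hdz d (by omega))) (Real.rpow_nonneg hd0.le _)
        _ = (d : ℝ) ^ (-(δm / 2)) := by
          rw [← Real.rpow_add hd0]
          congr 1
          ring
  refine key.trans ?_
  have h6 : (Nat.totient d : ℝ) ≤ d := by exact_mod_cast Nat.totient_le d
  calc (d : ℝ) ^ (-(δm / 2)) * (Nat.totient d : ℝ) ≤ (d : ℝ) ^ (-(δm / 2)) * (d : ℝ) ^ (1 : ℝ) := by
        rw [Real.rpow_one]
        exact mul_le_mul_of_nonneg_left h6 (Real.rpow_nonneg hd0.le _)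
    _ = (d : ℝ) ^ (1 - δm / 2) := by
      rw [← Real.rpow_add hd0]
      congr 1
      ring
    _ ≤ (d : ℝ) ^ (1 - c'') := Real.rpow_le_rpow_of_exponent_le hdR (by linarith)

open Classical in
/-- **Exactly `K` primes in all classes outside a power saving set.** -/
theorem exactly_Kp (L : ℕ) (ε : ℝ) (hε : 0 < ε) : ∃ c : ℝ, 0 < c ∧ ∃ d0 : ℕ, ∀ d : ℕ, d0 ≤ d → ∀ E : ℝ,
    (E = 4 / 3 + ε ∨ (E = 1 + ε ∧ ∃ e r : ℕ, d = e * r ∧ (e : ℝ) ≤ (d : ℝ) ^ c ∧ ∀ p : ℕ, p.Prime → ¬ p ^ 3 ∣ r)) →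
      (((range d).filter (fun a => a.Coprime d ∧ ∃ K : ℕ, 11 ≤ K ∧ K ≤ L ∧ ¬ Rp d E c K a)).card : ℝ) ≤ (d : ℝ) ^ (1 - c) := by
  obtain ⟨ε', hε'⟩ : ∃ ε' : ℝ, ε' = min ε (1 / 100) := ⟨_, rfl⟩
  have e0 : 0 < ε' := by
    rw [hε']
    exact lt_min hε (by norm_num)
  have e1 : ε' ≤ ε := hε' ▸ min_le_left _ _
  have e2 : ε' ≤ 1 / 100 := hε' ▸ min_le_right _ _
  obtain ⟨c1, hc1, d1, h1⟩ := ba_third (1 / 3 + ε' / 8) (by linarith)
  obtain ⟨c2, hc2, θ', hθ', d2, h2⟩ := ba_quarter (1 / 4 + ε' / 8) (by linarith)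
  obtain ⟨c3, hc3, d3, h3⟩ := manyp (1 / 3 + ε' / 8) c1 (ε' / 2) L (by linarith) (by linarith) hc1 (by linarith)
  obtain ⟨c4, hc4, d4, h4⟩ := manyp (1 / 4 + ε' / 8) c2 (ε' / 2) L (by linarith) (by linarith) hc2 (by linarith)
  refine ⟨min θ' (min c3 c4), lt_min hθ' (lt_min hc3 hc4), d1 + d2 + d3 + d4 + 1, ?_⟩
  intro d hd E hE
  have hne : NeZero d := ⟨by omega⟩
  have hd1 : 1 ≤ d := by omega
  have hdR : (1 : ℝ) ≤ d := by exact_mod_cast hd1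
  have hmono : ∀ E' : ℝ, E' ≤ E → ∀ c'' : ℝ, (((range d).filter (fun a => a.Coprime d ∧ ∃ K : ℕ, 11 ≤ K ∧ K ≤ L ∧ ¬ Rp d E c'' K a)).card : ℝ) ≤
      (((range d).filter (fun a => a.Coprime d ∧ ∃ K : ℕ, 11 ≤ K ∧ K ≤ L ∧ ¬ Rp d E' c'' K a)).card : ℝ) := by
    intro E' hE' c''
    have h5 : (range d).filter (fun a => a.Coprime d ∧ ∃ K : ℕ, 11 ≤ K ∧ K ≤ L ∧ ¬ Rp d E c'' K a) ⊆
        (range d).filter (fun a => a.Coprime d ∧ ∃ K : ℕ, 11 ≤ K ∧ K ≤ L ∧ ¬ Rp d E' c'' K a) := by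
      intro a ha
      obtain ⟨ha1, ha2, K, hK1, hK2, hK3⟩ := mem_filter.1 ha
      refine mem_filter.2 ⟨ha1, ha2, K, hK1, hK2, fun h => hK3 ?_⟩
      obtain ⟨n, n1, n2, n3, n4⟩ := h
      exact ⟨n, n1, n2, n3, n4.trans (Real.rpow_le_rpow_of_exponent_le hdR hE')⟩
    exact_mod_cast card_le_card h5
  rcases hE with rfl | ⟨rfl, e, r, her, he, hr⟩
  · refine (hmono (4 * (1 / 3 + ε' / 8) + ε' / 2) (by linarith) _).trans ?_
    exact h3 d (by omega) (h1 d (by omega)) _ ((min_le_right _ _).trans (min_le_left _ _))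
  · refine (hmono (4 * (1 / 4 + ε' / 8) + ε' / 2) (by linarith) _).trans ?_
    refine h4 d (by omega) (h2 d (by omega) ⟨e, r, her, he.trans ?_, hr⟩) _ ((min_le_right _ _).trans (min_le_right _ _))
    exact Real.rpow_le_rpow_of_exponent_le hdR (min_le_left _ _)

end Pool.Agent.Lib.MP_42948a_nt.TV
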